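import Pool.Agent.Run7.h343.NU.Off2
import Pool.Agent.Run7.h343.NG.Bd

/-!
The theta bound and the normalised theta bound: constants which are polynomial in the constant of
the lattice.
-/

set_option autoImplicit false
set_option linter.unusedSectionVars false

namespace Run7.h343.NU

open Complex Finset
open Run7.h343.NF hiding TT TT_pois TT_mid TT_triv off_triv off_triv2 Th Th_sq NT NT_triv Th_fe Th_bound NT_all
open Run7.h343.NG (TT TT_pois TT_mid TT_triv off_triv off_triv2 Th Th_sq NT NT_triv Th_fe dz de)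

variable {ι : Type} [Fintype ι] [DecidableEq ι]

/-- the constant of the theta bound -/
noncomputable def Co4 (n : ℕ) (CG : ℝ) : ℝ := 1 + CG + Co3 n CG

lemma Co4_pos (n : ℕ) {CG : ℝ} (h : 0 ≤ CG) : 0 < Co4 n CG := by
  unfold Co4
  have := Co3_pos n h
  positivity

/-- **the theta bound** -/
theorem Th_bound (o : ι) {CG : ℝ} (hCG : 0 ≤ CG) : ∀ p : ℕ, p.Prime → 7 ≤ p →
    ∀ (ν m : ℕ), 1 ≤ m → m < ν → 19 * ν ≤ 58 * m →
    ∀ χ : DirichletCharacter ℂ (p ^ ν), χ.IsPrimitive → ∀ (A : Matrix ι ι ℝ) (σ : ι → ℝ) (z : EuclideanSpace ℝ ι) (η : ι → ℝ) (S : ℝ),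
      WR p o CG ν A → 1 ≤ S → (∀ i, |σ i| ≤ S) → 1 ≤ |A.det|⁻¹ →
      |A.det|⁻¹ ^ 2 ≤ S ^ (2 * Fintype.card ι) * (p : ℝ) ^ ν →
      ‖Th χ o A σ z η‖ ^ 2 ≤
        Co4 (Fintype.card ι) CG * (p : ℝ) ^ (Fintype.card ι + 3) * (1 + ν) ^ 2 * S ^ Fintype.card ι * ((p : ℝ) ^ m * |A.det|⁻¹) := by
  classical
  have hall := off_sum o hCG
  obtain ⟨n, hn⟩ : ∃ n, n = Fintype.card ι := ⟨_, rfl⟩
  rw [← hn] at hall ⊢
  obtain ⟨C1, hC1d⟩ : ∃ C1, C1 = Co3 n CG := ⟨_, rfl⟩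
  have hC1 : 0 < C1 := by rw [hC1d]; exact Co3_pos n hCG
  have hCo : Co4 n CG = 1 + CG + C1 := by rw [hC1d]; rfl
  rw [← hC1d] at hall
  rw [hCo]
  intro p hp hp7 ν m hm hmν h19 χ hχ A σ z η S hW hS1 hσ hX1 hXq
  haveI : NeZero (p ^ m) := ⟨pow_ne_zero _ hp.ne_zero⟩
  have hp0 : (0 : ℝ) < p := by exact_mod_cast hp.pos
  have hp1 : (1 : ℝ) ≤ p := by exact_mod_cast hp.one_le
  have hS0 : 0 < S := by linarith
  have h := Th_sq hp hm hmν χ o hW.det σ z η (hall p hp hp7 ν m hm hmν h19 χ hχ A σ z S hW hS1 hσ hXq)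
  have h1 : ‖Th χ o A σ z η‖ ^ 2 ≤ ∑ θ : DirichletCharacter ℂ (p ^ m),
      ‖Th (χ * DirichletCharacter.changeLevel (pow_dvd_pow p hmν.le) θ) o A σ z η‖ ^ 2 := by
    have h2 := single_le_sum (f := fun θ : DirichletCharacter ℂ (p ^ m) =>
      ‖Th (χ * DirichletCharacter.changeLevel (pow_dvd_pow p hmν.le) θ) o A σ z η‖ ^ 2)
      (fun θ _ => sq_nonneg _) (mem_univ (1 : DirichletCharacter ℂ (p ^ m)))
    simp only [map_one, mul_one] at h2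
    exact h2
  refine (h1.trans h).trans ?_
  obtain ⟨X, hX⟩ : ∃ X : ℝ, X = |A.det|⁻¹ := ⟨_, rfl⟩
  have g1 := GE_s2 hW.lb
  rw [← hX] at hX1 g1 ⊢
  have hSn : 1 ≤ S ^ n := one_le_pow₀ hS1
  have hp4 : 1 ≤ (p : ℝ) ^ (n + 3) := one_le_pow₀ hp1
  have hν2 : 1 ≤ (1 + (ν : ℝ)) ^ 2 := one_le_pow₀ (by linarith [Nat.cast_nonneg (α := ℝ) ν])
  have g2 : GE (em (Real.sqrt 2 • A)) ≤ (1 + CG) * (p : ℝ) ^ (n + 3) * (1 + ν) ^ 2 * S ^ n * X := by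
    calc GE (em (Real.sqrt 2 • A)) ≤ 1 + CG * X := g1
      _ ≤ (1 + CG) * 1 * 1 * 1 * X := by nlinarith
      _ ≤ _ := by gcongr
  calc (p : ℝ) ^ m * (GE (em (Real.sqrt 2 • A)) + C1 * (p : ℝ) ^ (n + 3) * (1 + ν) ^ 2 * S ^ n * X) ≤
        (p : ℝ) ^ m * ((1 + CG) * (p : ℝ) ^ (n + 3) * (1 + ν) ^ 2 * S ^ n * X +
          C1 * (p : ℝ) ^ (n + 3) * (1 + ν) ^ 2 * S ^ n * X) := by gcongr
    _ = _ := by ring

theorem NT_all (o : ι) {CG : ℝ} (hCG : 0 ≤ CG) : ∀ p : ℕ, p.Prime → 7 ≤ p →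
    ∀ ν : ℕ, 1 ≤ ν → ∀ χ : DirichletCharacter ℂ (p ^ ν), χ.IsPrimitive →
    ∀ (A : Matrix ι ι ℝ) (σ : ι → ℝ) (z : EuclideanSpace ℝ ι) (η : ι → ℝ) (S CH : ℝ), WR p o CG ν A →
      WR p o CG ν (Aq A σ o ((p : ℝ) ^ ν)) →
      (∀ i, Real.sqrt (1 + σ i ^ 2) ≤ S) → 0 ≤ CH →
      ‖Th χ o A σ z η‖ ≤ CH * |A.det|⁻¹ →
      ‖Th χ⁻¹ o (Aq A σ o ((p : ℝ) ^ ν)) (-σ) (dz σ η) (de σ z)‖ ≤ CH * |(Aq A σ o ((p : ℝ) ^ ν)).det|⁻¹ →
      NT χ o A σ z η ≤ (Co4 (Fintype.card ι) CG + CH ^ 2) * (p : ℝ) ^ (Fintype.card ι + 4) * (1 + ν) ^ 2 * S ^ Fintype.card ι *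
        ((p : ℝ) ^ ν) ^ (19 / 58 : ℝ) * min |A.det|⁻¹ (min 1 |(Aq A σ o ((p : ℝ) ^ ν)).det|⁻¹) := by
  have hth := Th_bound o hCG
  obtain ⟨n, hn⟩ : ∃ n, n = Fintype.card ι := ⟨_, rfl⟩
  rw [← hn] at hth ⊢
  obtain ⟨C1, hC1d⟩ : ∃ C1, C1 = Co4 n CG := ⟨_, rfl⟩
  have hC1 : 0 < C1 := by rw [hC1d]; exact Co4_pos n hCG
  rw [← hC1d] at hth ⊢
  intro p hp hp7 ν hν χ hχ A σ z η S CH hW hW' hσS hCH hH1 hH2
  have hp0 : (0 : ℝ) < p := by exact_mod_cast hp.pos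
  have hp1 : (1 : ℝ) ≤ p := by exact_mod_cast hp.one_le
  have hS1 : 1 ≤ S := by
    refine le_trans ?_ (hσS o)
    rw [Real.one_le_sqrt]
    nlinarith [sq_nonneg (σ o)]
  have hS0 : 0 < S := by linarith
  have hσ1 : ∀ i, |σ i| ≤ S := by
    intro i
    refine le_trans ?_ (hσS i)
    rw [← Real.sqrt_sq_eq_abs]
    exact Real.sqrt_le_sqrt (by linarith)
  have hσ2 : ∀ i, |(-σ) i| ≤ S := by
    intro i
    rw [Pi.neg_apply, abs_neg]
    exact hσ1 i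
  obtain ⟨A', hA'⟩ : ∃ A', A' = Aq A σ o ((p : ℝ) ^ ν) := ⟨_, rfl⟩
  rw [← hA'] at hW' hH2 ⊢
  have hSn : 1 ≤ S ^ n := one_le_pow₀ hS1
  have hSn2 : (S ^ n) ^ 2 = S ^ (2 * n) := by rw [← pow_mul]; congr 1; ring
  obtain ⟨q, hq⟩ : ∃ q : ℝ, q = (p : ℝ) ^ ν := ⟨_, rfl⟩
  have hq0 : 0 < q := by rw [hq]; positivity
  have hq1 : 1 ≤ q := by rw [hq]; exact one_le_pow₀ hp1
  rw [← hq]
  obtain ⟨K, hK⟩ : ∃ K : ℝ, K = (C1 + CH ^ 2) * (p : ℝ) ^ (n + 4) * (1 + ν) ^ 2 * S ^ n * q ^ (19 / 58 : ℝ) := ⟨_, rfl⟩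
  have hp4 : 1 ≤ (p : ℝ) ^ (n + 4) := one_le_pow₀ hp1
  have hν2 : 1 ≤ (1 + (ν : ℝ)) ^ 2 := one_le_pow₀ (by linarith [Nat.cast_nonneg (α := ℝ) ν])
  have hq19 : 1 ≤ q ^ (19 / 58 : ℝ) := Real.one_le_rpow hq1 (by norm_num)
  have hCK : CH ^ 2 ≤ K := by
    rw [hK]
    calc CH ^ 2 ≤ (C1 + CH ^ 2) * 1 * 1 * 1 * 1 := by linarith
      _ ≤ _ := by gcongr
  have hK0 : 0 ≤ K := le_trans (by positivity) hCK
  -- the direct range
  have hdir : ∀ (ψ : DirichletCharacter ℂ (p ^ ν)), ψ.IsPrimitive → ∀ (B : Matrix ι ι ℝ) (τ : ι → ℝ)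
      (z : EuclideanSpace ℝ ι) (η : ι → ℝ), ‖Th ψ o B τ z η‖ ≤ CH * |B.det|⁻¹ →
      WR p o CG ν B → (∀ i, |τ i| ≤ S) → |B.det|⁻¹ ^ 2 ≤ S ^ (2 * n) * q → NT ψ o B τ z η ≤ K := by
    intro ψ hψ B τ z η hth0 hB hτ hBq
    have hdB : 0 < |B.det| := abs_pos.2 hB.det
    rcases le_or_gt 1 |B.det|⁻¹ with h1 | h1
    · rcases Nat.lt_or_ge 1 ν with hν1 | hν1
      · obtain ⟨m, hm⟩ : ∃ m, m = (19 * ν + 57) / 58 := ⟨_, rfl⟩
        have h2 := hth p hp hp7 ν m (by omega) (by omega) (by omega) ψ hψ B τ z η S hB hS1 hτ h1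
          (by rw [← hq]; exact hBq)
        have h3 : (p : ℝ) ^ m ≤ p * q ^ (19 / 58 : ℝ) := by
          rw [hq, ← Real.rpow_natCast, ← Real.rpow_natCast (p : ℝ) ν, ← Real.rpow_mul hp0.le]
          nth_rewrite 2 [← Real.rpow_one (p : ℝ)]
          rw [← Real.rpow_add hp0]
          apply Real.rpow_le_rpow_of_exponent_le hp1
          have : (m : ℝ) * 58 ≤ 19 * ν + 57 := by
            have : m * 58 ≤ 19 * ν + 57 := by omega
            exact_mod_cast this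
          linarith
        unfold NT
        calc ‖Th ψ o B τ z η‖ ^ 2 * |B.det| ≤ (C1 * (p : ℝ) ^ (n + 3) * (1 + ν) ^ 2 * S ^ n *
              ((p : ℝ) ^ m * |B.det|⁻¹)) * |B.det| := mul_le_mul_of_nonneg_right h2 hdB.le
          _ = C1 * (p : ℝ) ^ (n + 3) * (1 + ν) ^ 2 * S ^ n * (p : ℝ) ^ m := by field_simp
          _ ≤ C1 * (p : ℝ) ^ (n + 3) * (1 + ν) ^ 2 * S ^ n * (p * q ^ (19 / 58 : ℝ)) := by gcongr
          _ = C1 * (p : ℝ) ^ (n + 4) * (1 + ν) ^ 2 * S ^ n * q ^ (19 / 58 : ℝ) := by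
              rw [pow_succ (p : ℝ) (n + 3)]
              ring
          _ ≤ K := by
              rw [hK]
              have : C1 ≤ C1 + CH ^ 2 := by nlinarith [sq_nonneg CH]
              gcongr
      · have hν1' : ν = 1 := by omega
        refine (NT_triv ψ o hB.det τ z η hth0).trans ?_
        have hXs : |B.det|⁻¹ ≤ S ^ n * p := by
          refine le_of_pow_le_pow_left₀ (n := 2) (by norm_num) (by positivity) ?_
          rw [mul_pow, hSn2]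
          refine hBq.trans ?_
          rw [hq, hν1', pow_one]
          have : (p : ℝ) ≤ (p : ℝ) ^ 2 := le_self_pow₀ hp1 (by norm_num)
          gcongr
        calc CH ^ 2 * |B.det|⁻¹ ≤ (C1 + CH ^ 2) * (S ^ n * p) := by
              have : CH ^ 2 ≤ C1 + CH ^ 2 := by linarith
              gcongr
          _ ≤ (C1 + CH ^ 2) * (S ^ n * (p : ℝ) ^ (n + 4)) := by
              have : (p : ℝ) ≤ (p : ℝ) ^ (n + 4) := le_self_pow₀ hp1 (by omega)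
              gcongr
          _ = (C1 + CH ^ 2) * (p : ℝ) ^ (n + 4) * 1 * S ^ n * 1 := by ring
          _ ≤ K := by
              rw [hK]
              gcongr
    · refine (NT_triv ψ o hB.det τ z η hth0).trans ?_
      refine le_trans ?_ hCK
      exact mul_le_of_le_one_right (by positivity) h1.le
  have hfe : NT χ o A σ z η = NT χ⁻¹ o A' (-σ) (dz σ η) (de σ z) := by
    unfold NT
    rw [hA']
    exact Th_fe hp hχ o hW.det σ z η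
  have hmain : NT χ o A σ z η ≤ K := by
    rcases le_or_gt (|A.det|⁻¹ ^ 2) (S ^ (2 * n) * q) with h1 | h1
    · exact hdir χ hχ A σ z η hH1 hW hσ1 h1
    · rw [hfe]
      refine hdir χ⁻¹ (prim_inv hχ) A' (-σ) _ _ hH2 hW' hσ2 ?_
      have hdA : 0 < |A.det| := abs_pos.2 hW.det
      obtain ⟨R, hR⟩ : ∃ R : ℝ, R = ∏ i, Real.sqrt (1 + σ i ^ 2) := ⟨_, rfl⟩
      have hR0 : 0 < R := by rw [hR]; exact prod_pos fun i _ => rs_pos σ i
      have hRS : R ≤ S ^ n := by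
        rw [hR, hn]
        calc ∏ i, Real.sqrt (1 + σ i ^ 2) ≤ ∏ _i : ι, S :=
              prod_le_prod (fun i _ => (rs_pos σ i).le) fun i _ => hσS i
          _ = _ := by rw [prod_const, card_univ]
      have e1 : |A'.det|⁻¹ = R * q * |A.det| := by
        rw [hA', Aq_det A σ o (by positivity), hR, ← hq, prod_inv_distrib, mul_inv, inv_inv, inv_inv]
        ring
      rw [e1]
      have h2 : S ^ (2 * n) * q * |A.det| ^ 2 ≤ 1 := by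
        have h3 : S ^ (2 * n) * q * |A.det| ^ 2 ≤ |A.det|⁻¹ ^ 2 * |A.det| ^ 2 :=
          mul_le_mul_of_nonneg_right h1.le (by positivity)
        have h4 : |A.det|⁻¹ ^ 2 * |A.det| ^ 2 = 1 := by
          rw [← mul_pow, inv_mul_cancel₀ hdA.ne', one_pow]
        linarith
      calc (R * q * |A.det|) ^ 2 = R ^ 2 * q * (q * |A.det| ^ 2) := by ring
        _ ≤ (S ^ n) ^ 2 * q * (q * |A.det| ^ 2) := by gcongr
        _ = q * (S ^ (2 * n) * q * |A.det| ^ 2) := by rw [hSn2]; ring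
        _ ≤ q * 1 := by gcongr
        _ ≤ S ^ (2 * n) * q := by
            rw [mul_one]
            exact le_mul_of_one_le_left hq0.le (one_le_pow₀ hS1)
  have hXb : ∀ (B : Matrix ι ι ℝ) (τ : ι → ℝ) (z' : EuclideanSpace ℝ ι) (η' : ι → ℝ)
      (ψ : DirichletCharacter ℂ (p ^ ν)), ‖Th ψ o B τ z' η'‖ ≤ CH * |B.det|⁻¹ → WR p o CG ν B →
      NT χ o A σ z η = NT ψ o B τ z' η' → NT χ o A σ z η ≤ K * |B.det|⁻¹ := by
    intro B τ z' η' ψ hth0 hB he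
    have hdB : 0 < |B.det| := abs_pos.2 hB.det
    rcases le_or_gt 1 |B.det|⁻¹ with h1 | h1
    · exact hmain.trans (le_mul_of_one_le_right hK0 h1)
    · rw [he]
      refine (NT_triv ψ o hB.det τ z' η' hth0).trans ?_
      exact mul_le_mul_of_nonneg_right hCK (by positivity)
  rw [← hK]
  rcases min_choice |A.det|⁻¹ (min 1 |A'.det|⁻¹) with h | h
  · rw [h]
    exact hXb A σ z η χ hH1 hW rfl
  · rw [h]
    rcases min_choice 1 |A'.det|⁻¹ with h' | h'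
    · rw [h', mul_one]
      exact hmain
    · rw [h']
      exact hXb A' (-σ) _ _ χ⁻¹ hH2 hW' hfe

end Run7.h343.NU
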