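import Pool.Agent.Run7.h343.NF.Nf3
import Mathlib.NumberTheory.NumberField.Discriminant.Different

/-!
The lattices of ideals are balanced, with a constant which is the square root of the discriminant.
-/

set_option autoImplicit false
set_option linter.unusedSectionVars false

open NumberField Finset

namespace Run7.h343.NU

open Run7.h343.NF
open Pool.Agent.Y773 (Idx db)
open Pool.Agent.Y773.G (cj rr cjE cjE_apply trace_mul_eq_sum cj_cj)

attribute [local instance] decEm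

variable {K : Type} [Field K] [NumberField K]

/-- the trace matrix -/
lemma M0_sq : (M0 K).transpose * (M0 K).submatrix (cjE K) id =
    (Algebra.traceMatrix ℚ (fun i : K →+* ℂ => ((b0 K i : 𝓞 K) : K))).map (algebraMap ℚ ℝ) := by
  ext i j
  rw [Matrix.mul_apply, Matrix.map_apply, Algebra.traceMatrix_apply, Algebra.traceForm_apply]
  simp only [Matrix.transpose_apply, Matrix.submatrix_apply, id]
  have h := trace_mul_eq_sum ((b0 K i : 𝓞 K) : K) ((b0 K j : 𝓞 K) : K)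
  unfold M0
  simp only [cjE_apply]
  rw [← h]
  rfl

lemma discr_b0 : Algebra.discr ℚ (fun i : K →+* ℂ => ((b0 K i : 𝓞 K) : K)) = (discr K : ℚ) := by
  rw [coe_discr, ← Algebra.discr_reindex ℚ (integralBasis K) (eI K)]
  congr 1
  funext i
  rw [b0_coe]
  rfl

/-- the covolume is the square root of the discriminant -/
theorem VK_sq : VK K ^ 2 = |(discr K : ℝ)| := by
  have h := congrArg Matrix.det (M0_sq (K := K))
  have e1 : ((M0 K).submatrix (cjE K) id).det = (((Equiv.Perm.sign (cjE K) : ℤˣ) : ℤ) : ℝ) * (M0 K).det :=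
    Matrix.det_permute (cjE K) (M0 K)
  have e2 : ((Algebra.traceMatrix ℚ (fun i : K →+* ℂ => ((b0 K i : 𝓞 K) : K))).map (algebraMap ℚ ℝ)).det =
      (discr K : ℝ) := by
    rw [← RingHom.mapMatrix_apply, ← RingHom.map_det, ← Algebra.discr_def, discr_b0]
    simp
  rw [Matrix.det_mul, Matrix.det_transpose, e1, e2] at h
  have h2 := congrArg abs h
  rw [abs_mul, abs_mul] at h2
  have h3 : |(((Equiv.Perm.sign (cjE K) : ℤˣ) : ℤ) : ℝ)| = 1 := by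
    rcases Int.units_eq_one_or (Equiv.Perm.sign (cjE K)) with h4 | h4 <;> simp [h4]
  rw [h3, one_mul] at h2
  unfold VK
  rw [sq]
  exact h2

lemma one_le_D : 1 ≤ |(discr K : ℝ)| := by
  have h := Int.one_le_abs (discr_ne_zero K)
  exact_mod_cast h

lemma VK_one_le : 1 ≤ VK K := by
  have h1 := VK_sq (K := K)
  have h2 := one_le_D (K := K)
  have h3 := VK_pos (K := K)
  nlinarith

/-- integrality of the product with an ideal -/
lemma nK_int_mul {𝔠 : Ideal (𝓞 K)} (h𝔠 : 𝔠 ≠ ⊥) {y : K} (hy0 : y ≠ 0)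
    (h1 : ∀ z ∈ 𝔠, IsIntegral ℤ (y * (z : 𝓞 K))) : 1 ≤ (Ideal.absNorm 𝔠 : ℝ) * nK y := by
  obtain ⟨k, hk0, hk⟩ := exists_integral_multiples ℤ ℚ (L := K) {y}
  have hk1 := hk _ (mem_singleton_self _)
  rw [zsmul_eq_mul] at hk1
  obtain ⟨g, hg⟩ : ∃ g : 𝓞 K, (g : K) = (k : K) * y := ⟨⟨_, hk1⟩, rfl⟩
  have hkK0 : (k : K) ≠ 0 := by exact_mod_cast hk0
  have hg0 : g ≠ 0 := by
    intro h
    rw [h] at hg
    simp only [map_zero] at hg
    exact mul_ne_zero hkK0 hy0 hg.symm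
  have h2 : Ideal.span {g} * 𝔠 ≤ Ideal.span {(k : 𝓞 K)} := by
    rw [Ideal.span_singleton_mul_le_iff]
    intro z hz
    rw [Ideal.mem_span_singleton]
    obtain ⟨v, hv⟩ : ∃ v : 𝓞 K, (v : K) = y * (z : 𝓞 K) := ⟨⟨_, h1 z hz⟩, rfl⟩
    refine ⟨v, ?_⟩
    apply RingOfIntegers.coe_injective
    have e1 : ((g * z : 𝓞 K) : K) = (g : K) * (z : 𝓞 K) := map_mul _ _ _
    have e2 : ((((k : ℤ) : 𝓞 K) * v : 𝓞 K) : K) = (((k : ℤ) : 𝓞 K) : K) * v := map_mul _ _ _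
    have e3 : (((k : ℤ) : 𝓞 K) : K) = (k : K) := map_intCast _ _
    refine e1.trans (Eq.trans ?_ e2.symm)
    rw [e3, hg, hv]
    ring
  have h3 : Ideal.absNorm (Ideal.span {(k : 𝓞 K)}) ∣ Ideal.absNorm (Ideal.span {g} * 𝔠) :=
    map_dvd Ideal.absNorm (Ideal.dvd_iff_le.2 h2)
  have h4 : Ideal.absNorm (Ideal.span {g} * 𝔠) ≠ 0 := by
    rw [Ne, Ideal.absNorm_eq_zero_iff]
    refine mul_ne_zero ?_ h𝔠
    rw [Ne, Ideal.zero_eq_bot, Ideal.span_singleton_eq_bot]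
    exact hg0
  have h5 : ((Ideal.absNorm (Ideal.span {(k : 𝓞 K)}) : ℕ) : ℝ) ≤
      ((Ideal.absNorm (Ideal.span {g}) * Ideal.absNorm 𝔠 : ℕ) : ℝ) := by
    rw [map_mul] at h3 h4
    exact_mod_cast Nat.le_of_dvd (Nat.pos_of_ne_zero h4) h3
  push_cast at h5
  rw [← nK_int, ← nK_int, hg] at h5
  have h6 : (((k : ℤ) : 𝓞 K) : K) = (k : K) := map_intCast _ _
  rw [h6, nK_mul] at h5
  have h7 : 0 < nK (k : K) := nK_pos hkK0
  have h8 : nK (k : K) * 1 ≤ nK (k : K) * ((Ideal.absNorm 𝔠 : ℝ) * nK y) := by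
    calc nK (k : K) * 1 = nK (k : K) := mul_one _
      _ ≤ _ := h5
      _ = _ := by ring
  exact le_of_mul_le_mul_left h8 h7

/-- elements of the different -/
lemma diff_int {u : K} (hu : ∀ w : 𝓞 K, ∃ t : ℤ, Algebra.trace ℚ K (u * w) = t) {d : 𝓞 K}
    (hd : d ∈ differentIdeal ℤ (𝓞 K)) : IsIntegral ℤ (u * (d : K)) := by
  have h10 : (1 : FractionalIdeal (nonZeroDivisors (𝓞 K)) K) ≠ 0 := one_ne_zero
  have h1 : u ∈ FractionalIdeal.dual ℤ ℚ (1 : FractionalIdeal (nonZeroDivisors (𝓞 K)) K) := by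
    rw [FractionalIdeal.mem_dual h10]
    intro a ha
    rw [FractionalIdeal.mem_one_iff] at ha
    obtain ⟨w, rfl⟩ := ha
    obtain ⟨t, ht⟩ := hu w
    refine ⟨t, ?_⟩
    rw [Algebra.traceForm_apply]
    rw [ht]
    simp
  have h2 : (d : K) ∈ ((differentIdeal ℤ (𝓞 K) : Ideal (𝓞 K)) : FractionalIdeal (nonZeroDivisors (𝓞 K)) K) := by
    rw [FractionalIdeal.mem_coeIdeal]
    exact ⟨d, hd, rfl⟩
  rw [coeIdeal_differentIdeal (K := ℚ)] at h2
  have h3 := FractionalIdeal.mul_mem_mul h1 h2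
  rw [mul_inv_cancel₀ (FractionalIdeal.dual_ne_zero ℤ ℚ h10), FractionalIdeal.mem_one_iff] at h3
  obtain ⟨x, hx⟩ := h3
  rw [← hx]
  exact x.2

/-- the norm of an element of the dual of an ideal -/
lemma nK_dual_u {𝔠 : Ideal (𝓞 K)} (h𝔠 : 𝔠 ≠ ⊥) {y : K} (hy0 : y ≠ 0)
    (hy : ∀ z ∈ 𝔠, ∃ t : ℤ, Algebra.trace ℚ K (y * (z : 𝓞 K)) = t) :
    1 ≤ |(discr K : ℝ)| * (Ideal.absNorm 𝔠 : ℝ) * nK y := by
  have hne : 𝔠 * differentIdeal ℤ (𝓞 K) ≠ ⊥ := by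
    rw [← Ideal.zero_eq_bot] at h𝔠 ⊢
    exact mul_ne_zero h𝔠 (differentIdeal_ne_bot (A := ℤ) (B := 𝓞 K))
  have h1 := nK_int_mul hne hy0 (fun z hz => by
    refine Submodule.mul_induction_on hz ?_ ?_
    · intro m hm d hd
      have h2 := diff_int (u := y * (m : 𝓞 K)) (fun w => by
        obtain ⟨t, ht⟩ := hy (m * w) (𝔠.mul_mem_right w hm)
        refine ⟨t, ?_⟩
        rw [← ht]
        congr 1
        push_cast
        ring) hd
      have e1 : y * ((m * d : 𝓞 K) : K) = y * (m : 𝓞 K) * (d : K) := by push_cast; ring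
      rw [e1]
      exact h2
    · intro a b ha hb
      have e1 : y * ((a + b : 𝓞 K) : K) = y * (a : K) + y * (b : K) := by push_cast; ring
      rw [e1]
      exact ha.add hb)
  have h3 : (Ideal.absNorm (𝔠 * differentIdeal ℤ (𝓞 K)) : ℝ) = |(discr K : ℝ)| * (Ideal.absNorm 𝔠 : ℝ) := by
    rw [map_mul, absNorm_differentIdeal K (𝓞 K)]
    push_cast
    rw [mul_comm, Nat.cast_natAbs]
    push_cast
    ring
  rwa [h3] at h1

/-- lower bounds for the minimal vectors -/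
theorem min_u {𝔠 : Ideal (𝓞 K)} {C : Matrix (K →+* ℂ) (K →+* ℂ) ℤ} (h : IsL C 𝔠) (y : InfinitePlace K → ℝ) :
      (∀ x : (K →+* ℂ) → ℤ, x ≠ 0 → (VK K)⁻¹ * |(sc y * LC C).det| ≤ ‖em (sc y * LC C) x‖ ^ Fintype.card (K →+* ℂ)) ∧
      (∀ x : (K →+* ℂ) → ℤ, x ≠ 0 → (VK K)⁻¹ * |(dl (sc y * LC C)).det| ≤
        ‖em (dl (sc y * LC C)) x‖ ^ Fintype.card (K →+* ℂ)) := by
  have hV := VK_pos (K := K)
  refine ⟨fun x hx => ?_, fun x hx => ?_⟩
  · have h1 := nrm_em (y := y) (B := LC C) (m := x) (Or.inl fun φ => em_LC C x φ)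
    refine le_trans ?_ h1
    have h2 := nK_ideal (h.mem x) (el0_ne (mulVec_ne h.det_ne hx))
    rw [B_det h]
    calc (VK K)⁻¹ * (Real.exp (sy y / 2) * (VK K * (Ideal.absNorm 𝔠 : ℝ))) =
          Real.exp (sy y / 2) * (Ideal.absNorm 𝔠 : ℝ) := by field_simp
      _ ≤ _ := mul_le_mul_of_nonneg_left h2 (Real.exp_pos _).le
  · obtain ⟨z, hz1, hz2, hz3⟩ := h.dual x
    have h1 := nrm_em (y := fun w => -y w) (B := dl (LC C)) (m := x) (Or.inr hz1)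
    rw [dl_mul, dl_sc]
    refine le_trans ?_ h1
    have h2 := nK_dual_u h.ne_bot (hz3 hx) hz2
    rw [← VK_sq] at h2
    have h3 : 0 < (Ideal.absNorm 𝔠 : ℝ) := by
      have : Ideal.absNorm 𝔠 ≠ 0 := by rw [Ne, Ideal.absNorm_eq_zero_iff]; exact h.ne_bot
      exact_mod_cast Nat.pos_of_ne_zero this
    have h4 : |(sc (fun w => -y w) * dl (LC C)).det| = (Real.exp (sy y / 2) * (VK K * (Ideal.absNorm 𝔠 : ℝ)))⁻¹ := by
      rw [← dl_sc, ← dl_mul, dl_det, abs_inv, B_det h]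
    rw [h4, sy_neg, neg_div, Real.exp_neg]
    have h5 : (VK K ^ 2 * (Ideal.absNorm 𝔠 : ℝ))⁻¹ ≤ nK z := by
      rw [inv_le_iff_one_le_mul₀ (by positivity)]
      linarith
    calc (VK K)⁻¹ * (Real.exp (sy y / 2) * (VK K * (Ideal.absNorm 𝔠 : ℝ)))⁻¹ =
          (Real.exp (sy y / 2))⁻¹ * (VK K ^ 2 * (Ideal.absNorm 𝔠 : ℝ))⁻¹ := by field_simp
      _ ≤ _ := mul_le_mul_of_nonneg_left h5 (by positivity)

/-- the packing constant as a function of the dimension -/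
noncomputable def Cpn (n : ℕ) : ℝ := 3 ^ n * Real.Gamma ((n : ℝ) / 2 + 1) / Real.sqrt Real.pi ^ n

lemma Cpn_pos (n : ℕ) : 0 < Cpn n := by
  unfold Cpn
  have h1 : 0 < Real.Gamma ((n : ℝ) / 2 + 1) := Real.Gamma_pos_of_pos (by positivity)
  have h2 := Real.sqrt_pos.2 Real.pi_pos
  positivity

lemma Cp_eq (ι : Type) [Fintype ι] [Nonempty ι] : Cp ι = Cpn (Fintype.card ι) := by
  unfold Cp Cpn V1
  have h1 : 0 < Real.Gamma ((Fintype.card ι : ℝ) / 2 + 1) := Real.Gamma_pos_of_pos (by positivity)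
  have h2 := Real.sqrt_pos.2 Real.pi_pos
  rw [EuclideanSpace.volume_ball, ENNReal.ofReal_one, one_pow, one_mul, ENNReal.toReal_ofReal (by positivity)]
  field_simp

variable (K) in
/-- the constant of the lattices of `K` -/
noncomputable def CGU : ℝ := Cpn (Fintype.card (K →+* ℂ)) * VK K

lemma CGU_nonneg : 0 ≤ CGU K := mul_nonneg (Cpn_pos _).le VK_pos.le

lemma IsL_Lb {C : Matrix (K →+* ℂ) (K →+* ℂ) ℤ} {𝔠 : Ideal (𝓞 K)} (h : IsL C 𝔠) (y : InfinitePlace K → ℝ) :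
    Lb (CGU K) (sc y * LC C) := by
  obtain ⟨h3, h4⟩ := min_u h y
  have h1 := Lb_of_min (B_ne h y) (inv_pos.2 VK_pos) h3 h4
  rw [Cp_eq, div_inv_eq_mul] at h1
  exact h1

/-- balanced chains -/
theorem Chn_WR {p : ℕ} {o : K →+* ℂ} {ν : ℕ} {C : Matrix (K →+* ℂ) (K →+* ℂ) ℤ} {𝔟 𝔭 : Ideal (𝓞 K)}
    (h : Chn p o ν C 𝔟 𝔭) (y : InfinitePlace K → ℝ) : WR p o (CGU K) ν (sc y * LC C) := by
  intro c hc
  have e1 : (p : ℝ) ^ c = (((p : ℤ) ^ c : ℤ) : ℝ) := by push_cast; rfl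
  rw [Matrix.mul_assoc, e1, ← LC_Dz]
  exact IsL_Lb (h c hc) y

theorem Chn_WR' {p : ℕ} (hp : 0 < p) {o : K →+* ℂ} {ν : ℕ} {C : Matrix (K →+* ℂ) (K →+* ℂ) ℤ} {𝔟 𝔭 : Ideal (𝓞 K)}
    (h : Chn p o ν C 𝔟 𝔭) (y σ : InfinitePlace K → ℝ) :
    WR p o (CGU K) ν (Aq (sc y * LC C) (wσ σ) o ((p : ℝ) ^ ν)) := by
  intro c hc
  rw [Aq_eq hp y σ C o hc]
  exact (IsL_Lb (h (ν - c) (Nat.sub_le _ _)) _).dl'

end Run7.h343.NU
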