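import Pool.Agent.H921R2.TatePole.Base
import Pool.Agent.Y773.HG.Cls

/-!
A bound for the zeta function of a number field at `2` in terms of the degree.
-/

set_option autoImplicit false
set_option linter.unusedSectionVars false

namespace Run7.h343.NU

open NumberField Finset IsDedekindDomain
open Pool.Agent.H921R2.TatePole
open Pool.Agent.Y773 (LI)
open Pool.Agent.Y773.G (summable_LI)

variable {K : Type} [Field K] [NumberField K]

lemma sum_two_le (s : Finset ℕ) : ∑ m ∈ s, (m : ℝ) ^ (-(2 : ℝ)) ≤ 2 := by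
  have h1 : HasSum (fun m : ℕ => (m : ℝ) ^ (-(2 : ℝ))) (Real.pi ^ 2 / 6) := by
    refine hasSum_zeta_two.congr_fun ?_
    intro m
    rw [Real.rpow_neg (Nat.cast_nonneg _), one_div]
    congr 1
    exact_mod_cast Real.rpow_natCast (m : ℝ) 2
  have h2 := sum_le_hasSum s (fun m _ => by positivity) h1
  have h3 : Real.pi ^ 2 / 6 ≤ 2 := by
    have h4 := Real.pi_lt_d2
    have h5 := Real.pi_pos
    nlinarith
  exact h2.trans h3

lemma CK_le : CK K ≤ 2 * Module.finrank ℚ K := by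
  classical
  unfold CK
  have hsum : Summable fun v : HeightOneSpectrum (𝓞 K) => (nm v : ℝ) ^ (-(2 : ℝ)) := nm_summable (by norm_num)
  refine hsum.tsum_le_of_sum_le fun F => ?_
  have h1 : ∀ v ∈ F, (nm v : ℝ) ^ (-(2 : ℝ)) ≤ (fun p : Nat.Primes => ((p : ℕ) : ℝ) ^ (-(2 : ℝ))) (below v) := by
    intro v _
    refine Real.rpow_le_rpow_of_nonpos ?_ ?_ (by norm_num)
    · exact_mod_cast (below v).2.pos
    · exact_mod_cast below_le_nm v
  have h2 : ∑ v ∈ F, (fun p : Nat.Primes => ((p : ℕ) : ℝ) ^ (-(2 : ℝ))) (below v) =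
      ∑ p ∈ F.image below, (#{v ∈ F | below v = p} : ℝ) * ((p : ℕ) : ℝ) ^ (-(2 : ℝ)) := by
    rw [Finset.sum_comp (fun p : Nat.Primes => ((p : ℕ) : ℝ) ^ (-(2 : ℝ))) below]
    simp
  have h3 : ∑ p ∈ F.image below, ((p : ℕ) : ℝ) ^ (-(2 : ℝ)) ≤ 2 := by
    have h4 : ∑ p ∈ F.image below, ((p : ℕ) : ℝ) ^ (-(2 : ℝ)) =
        ∑ m ∈ (F.image below).map (Function.Embedding.subtype _), (m : ℝ) ^ (-(2 : ℝ)) := by
      rw [sum_map]
      rfl
    rw [h4]
    exact sum_two_le _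
  calc ∑ v ∈ F, (nm v : ℝ) ^ (-(2 : ℝ)) ≤ _ := sum_le_sum h1
    _ = ∑ p ∈ F.image below, (#{v ∈ F | below v = p} : ℝ) * ((p : ℕ) : ℝ) ^ (-(2 : ℝ)) := h2
    _ ≤ ∑ p ∈ F.image below, (Module.finrank ℚ K : ℝ) * ((p : ℕ) : ℝ) ^ (-(2 : ℝ)) := by
        refine sum_le_sum fun p _ => mul_le_mul_of_nonneg_right ?_ (by positivity)
        have := card_above (K := K) p {v ∈ F | below v = p} (fun v hv => (mem_filter.1 hv).2)
        exact_mod_cast this
    _ = (Module.finrank ℚ K : ℝ) * ∑ p ∈ F.image below, ((p : ℕ) : ℝ) ^ (-(2 : ℝ)) := by rw [mul_sum]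
    _ ≤ (Module.finrank ℚ K : ℝ) * 2 := mul_le_mul_of_nonneg_left h3 (Nat.cast_nonneg _)
    _ = _ := by ring

lemma ZK_two_le : ZK K 2 ≤ Real.exp (4 * Module.finrank ℚ K) := by
  have h1 := le_prime_sum (K := K) (x := 2) (by norm_num)
  have h2 : ∑' v : HeightOneSpectrum (𝓞 K), (nm v : ℝ) ^ (-(2 : ℝ)) = CK K := rfl
  rw [h2] at h1
  have h3 := CK_le (K := K)
  have hpos : 0 < ZK K 2 := by
    have h := prod_one_add_le (K := K) (x := 2) (by norm_num) ∅
    rw [Finset.prod_empty] at h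
    linarith
  rw [← Real.log_le_iff_le_exp hpos]
  linarith

/-- the trivial character -/
noncomputable def tr (K : Type) [Field K] [NumberField K] : Ideal (𝓞 K) →*₀ ℂ := by
  classical
  exact
  { toFun := fun I => if I = ⊥ then 0 else 1
    map_zero' := by simp
    map_one' := by
      rw [if_neg]
      rw [Ideal.one_eq_top]
      exact top_ne_bot
    map_mul' := fun I J => by
      by_cases hI : I = ⊥
      · simp [hI]
      · by_cases hJ : J = ⊥
        · simp [hJ]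
        · have : I * J ≠ ⊥ := by
            rw [← Ideal.zero_eq_bot] at hI hJ ⊢
            exact mul_ne_zero hI hJ
          simp [hI, hJ, this] }

lemma tr_ne {I : Ideal (𝓞 K)} (h : I ≠ ⊥) : tr K I = 1 := by
  unfold tr
  simp [h]

lemma tr_bot : tr K ⊥ = 0 := by
  unfold tr
  simp

lemma tr_le (I : Ideal (𝓞 K)) : ‖tr K I‖ ≤ 1 := by
  by_cases h : I = ⊥
  · rw [h, tr_bot, norm_zero]
    exact zero_le_one
  · rw [tr_ne h, norm_one]

lemma LI_tr : ‖LI (tr K) 2‖ ≤ Real.exp (4 * Module.finrank ℚ K) := by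
  classical
  refine le_trans ?_ (ZK_two_le (K := K))
  have hs := summable_LI (K := K) (η := tr K) tr_le (s := 2) (by simp)
  unfold LI
  refine (norm_tsum_le_tsum_norm hs.norm).trans ?_
  refine hs.norm.tsum_le_of_sum_le fun F => ?_
  have h1 : ∀ I : Ideal (𝓞 K), ‖tr K I * ((Ideal.absNorm I : ℕ) : ℂ) ^ (-(2 : ℂ))‖ ≤
      if I ≠ ⊥ then ((Ideal.absNorm I : ℕ) : ℝ) ^ (-(2 : ℝ)) else 0 := by
    intro I
    split_ifs with h
    · rw [tr_ne h, one_mul]
      have hpos : (0 : ℝ) < ((Ideal.absNorm I : ℕ) : ℝ) := by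
        have : Ideal.absNorm I ≠ 0 := by rw [Ne, Ideal.absNorm_eq_zero_iff]; exact h
        exact_mod_cast Nat.pos_of_ne_zero this
      rw [← Complex.ofReal_natCast, Complex.norm_cpow_eq_rpow_re_of_pos hpos]
      simp
    · rw [not_not] at h
      rw [h, tr_bot, zero_mul, norm_zero]
  refine (sum_le_sum fun I _ => h1 I).trans ?_
  rw [← sum_filter]
  exact sum_ideals_le (by norm_num) _ fun I hI => (mem_filter.1 hI).2

end Run7.h343.NU
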