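import Pool.Agent.Run7.h343.NG.Lf
import Pool.Agent.Run7.h343.NU.Disc
import Pool.Agent.Run7.h343.NU.Zk

/-!
The class number in terms of the constant of the unfolding theorem.
-/

set_option autoImplicit false
set_option linter.unusedSectionVars false

open NumberField Complex Filter Topology MeasureTheory Set
open NumberField.Units NumberField.Units.dirichletUnitTheorem

namespace Run7.h343.NU

open Run7.h343.NF
open Run7.h343.NG (sp SP SP_cont gb_zero lk lk_adm mq)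

open Pool.Agent.Y773 (Idx el PP S0 PIdl gen gen_ne_zero span_gen xE unE toP unfold_P qt qt_spec qt_eq_bot isHaar_PP
  cube S0_eq integrable_exp_sub integral_exp_sub LI Reps)
open Pool.Agent.Y773.G (av av_pos sqrt_mult_pos xE_apply toP_xE coE summable_PIdl norm_absNorm_cpow sum_classes sum_el)

attribute [local instance] decEm

variable {K : Type} [Field K] [NumberField K]

/-- the constant of the unfolding theorem -/
def UnfC (K : Type) [Field K] [NumberField K] (C : ℝ) : Prop :=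
    ∀ (mm : InfinitePlace K → ℕ) (σ τ : InfinitePlace K → ℝ) (A : PIdl K → ℂ) (B : ℝ), (∀ J, ‖A J‖ ≤ B) →
      ∀ s : ℂ, 1 < s.re →
      (∀ x : {x : 𝓞 K // x ≠ 0},
        Integrable (fun p => A (toP x) * NG.Fz mm σ τ s (av x.1) p) (volume.restrict (S0 K))) ∧
      (Summable fun x : {x : 𝓞 K // x ≠ 0} =>
        ∫ p in S0 K, ‖A (toP x) * NG.Fz mm σ τ s (av x.1) p‖) ∧
      ∫ p in S0 K, ∑' x : {x : 𝓞 K // x ≠ 0}, A (toP x) * NG.Fz mm σ τ s (av x.1) p =
        C * (NG.Gz mm σ τ s * ∑' J : PIdl K, A J * ((Ideal.absNorm J.1 : ℕ) : ℂ) ^ (-s))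

/-- the trivial coefficients -/
noncomputable def X0 (K : Type) [Field K] [NumberField K] : ((K →+* ℂ) → ℤ) → ℂ := fun α => if α = 0 then 0 else 1

lemma X0_le (α : (K →+* ℂ) → ℤ) : ‖X0 K α‖ ≤ 1 := by
  unfold X0
  split_ifs <;> simp

lemma gz_ga (A : Matrix (K →+* ℂ) (K →+* ℂ) ℝ) (α : (K →+* ℂ) → ℤ) :
    gz A (fun _ => 0) α = ((ga (em A) 0 α : ℝ) : ℂ) := by
  unfold gz ga
  rw [ofReal_exp, sub_zero, EuclideanSpace.norm_sq_eq]
  congr 1
  push_cast
  rw [Finset.mul_sum, ← Finset.sum_neg_distrib]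
  refine Finset.sum_congr rfl fun i _ => ?_
  have : ((‖em A α i‖ : ℝ) : ℂ) ^ 2 = ((em A α i : ℝ) : ℂ) ^ 2 := by
    rw [← ofReal_pow, ← ofReal_pow, Real.norm_eq_abs, sq_abs]
  rw [this]
  ring

lemma wσ_zero : (wσ (fun _ : InfinitePlace K => (0 : ℝ))) = fun _ => 0 := by
  funext φ
  unfold wσ
  rfl

lemma SP_nz (B : Matrix (K →+* ℂ) (K →+* ℂ) ℝ) (l : InfinitePlace K → (K →+* ℂ) → ℂ) :
    SP (X0 K) B (wσ (fun _ : InfinitePlace K => (0 : ℝ))) l (fun _ => 0) = ((nz B : ℝ) : ℂ) := by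
  unfold SP nz
  rw [ofReal_tsum]
  refine tsum_congr fun α => ?_
  unfold sp X0
  rw [gb_zero, wσ_zero, gz_ga]
  simp only [pow_zero, Finset.prod_const_one, mul_one]
  split_ifs <;> simp

/-- the trivial theta series -/
theorem tr_th {𝔟 : Ideal (𝓞 K)} {C : Matrix (K →+* ℂ) (K →+* ℂ) ℤ} (hL : IsL C 𝔟) (P : PP K) :
    ∑' x : {x : 𝓞 K // x ≠ 0}, tr K (qt 𝔟 (gen (toP x))) *
      NG.Fz (fun _ => 0) (fun _ => 0) (fun _ => 0) 2 (av x.1) P =
      ((Real.exp (Module.finrank ℚ K * P.1) * nz (sc (el K P) * LC C) : ℝ) : ℂ) := by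
  classical
  obtain ⟨z, hz⟩ : ∃ z : InfinitePlace K → ℝ, z = fun _ => 0 := ⟨_, rfl⟩
  obtain ⟨G, hG⟩ : ∃ G : 𝓞 K → ℂ, G = fun x => if x ∈ 𝔟 ∧ x ≠ 0 then gK z (el K P) (x : K) else 0 := ⟨_, rfl⟩
  have hDτ : Dτ K z = 1 := by
    unfold Dτ
    rw [hz]
    simp
  have hphz : phz z (el K P) = 1 := by
    unfold phz
    rw [hz]
    simp
  have hkp : ∀ x : K, kp z x = 1 := by
    intro x
    unfold kp
    rw [hz]
    simp
  have h1 : ∀ x : {x : 𝓞 K // x ≠ 0}, tr K (qt 𝔟 (gen (toP x))) *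
      NG.Fz (fun _ => 0) (fun _ => 0) (fun _ => 0) 2 (av x.1) P =
      ((Real.exp (Module.finrank ℚ K * P.1) : ℝ) : ℂ) * G x.1 := by
    intro x
    rw [qt_toP, hG]
    simp only
    by_cases hx : x.1 ∈ 𝔟
    · rw [if_pos ⟨hx, x.2⟩]
      have h2 : qt 𝔟 x.1 ≠ ⊥ := by
        intro h0
        have h3 := qt_mem hx
        rw [h0, Ideal.bot_mul] at h3
        exact x.2 (Ideal.span_singleton_eq_bot.1 h3.symm)
      rw [tr_ne h2, one_mul]
      unfold NG.Fz
      have e1 : ∏ w, NG.lz 0 0 0 (av x.1 w) (el K P w) = gK z (el K P) (x.1 : K) := by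
        have e2 := prod_lz z z (el K P) x.2
        rw [hDτ, hphz, hkp, inv_one, one_mul, one_mul, one_mul] at e2
        rw [← e2, hz]
        refine Finset.prod_congr rfl fun w _ => ?_
        unfold NG.lz
        rw [pow_zero, one_mul]
      rw [e1, mul_comm]
      congr 1
      rw [ofReal_exp]
      congr 1
      push_cast
      ring
    · rw [if_neg (fun h => hx h.1), qt_not_mem hx, tr_bot, zero_mul, mul_zero]
  have hG0 : G 0 = 0 := by
    rw [hG]
    simp
  simp_rw [h1]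
  rw [tsum_mul_left]
  have h2 : ∑' x : {x : 𝓞 K // x ≠ 0}, G x.1 = ∑' x : 𝓞 K, G x := by
    refine tsum_subtype_eq_of_support_subset (s := {x : 𝓞 K | x ≠ 0}) ?_
    intro x hx h0
    exact hx (by rw [h0]; exact hG0)
  have hinj : Function.Injective fun α : (K →+* ℂ) → ℤ => el0 (C.mulVec α) :=
    el0_inj.comp (mulVec_inj hL.det_ne)
  have h3 : ∑' x : 𝓞 K, G x = ∑' α : (K →+* ℂ) → ℤ, G (el0 (C.mulVec α)) := by
    refine (hinj.tsum_eq (f := G) ?_).symm
    intro x hx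
    have hxb : x ∈ 𝔟 := by
      by_contra hcon
      apply hx
      rw [hG]
      simp only [if_neg (fun h : x ∈ 𝔟 ∧ x ≠ 0 => hcon h.1)]
    obtain ⟨α, hα⟩ := hL.surj x hxb
    exact ⟨α, hα⟩
  have h4 : ∑' α : (K →+* ℂ) → ℤ, G (el0 (C.mulVec α)) = ((nz (sc (el K P) * LC C) : ℝ) : ℂ) := by
    unfold nz
    rw [ofReal_tsum]
    refine tsum_congr fun α => ?_
    by_cases hα : α = 0
    · rw [if_pos hα, hα, Matrix.mulVec_zero]
      have : el0 (K := K) 0 = 0 := by unfold el0; exact map_zero _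
      rw [this, hG0, ofReal_zero]
    · rw [if_neg hα, hG]
      have h5 : el0 (C.mulVec α) ≠ 0 := el0_ne (mulVec_ne hL.det_ne hα)
      simp only
      rw [if_pos ⟨hL.mem α, h5⟩, ← gz_LC, hz, wσ_zero, gz_ga]
  rw [h2, h3, h4]
  push_cast
  rfl

lemma nz_low {B : Matrix (K →+* ℂ) (K →+* ℂ) ℝ} (hB : B.det ≠ 0) (h : |B.det| ≤ 1 / 2) : |B.det|⁻¹ / 2 ≤ nz B := by
  have h1 := GE_ge hB
  rw [GE_nz hB] at h1
  have h2 : 0 < |B.det| := abs_pos.2 hB
  have h3 : 2 ≤ |B.det|⁻¹ := by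
    rw [le_inv_comm₀ (by norm_num) h2]
    linarith
  linarith

/-- the lower bound for one class -/
theorem cls_low {c0 : ℝ} (hU : UnfC K c0) {𝔟 : Ideal (𝓞 K)} (h𝔟 : 𝔟 ≠ ⊥) : ∃ I : ℝ,
    ((I : ℝ) : ℂ) = c0 * (NG.Gz (K := K) (fun _ => 0) (fun _ => 0) (fun _ => 0) 2 *
      ∑' J : PIdl K, tr K (qt 𝔟 (gen J)) * ((Ideal.absNorm J.1 : ℕ) : ℂ) ^ (-(2 : ℂ))) ∧
    Real.exp (-(Module.finrank ℚ K / 2)) / (4 * VK K ^ 2) ≤ (Ideal.absNorm 𝔟 : ℝ) ^ 2 * I := by
  classical
  obtain ⟨C, hL⟩ := exists_base h𝔟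
  have hV := VK_pos (K := K)
  have hN : 0 < (Ideal.absNorm 𝔟 : ℝ) := by
    have : Ideal.absNorm 𝔟 ≠ 0 := by rw [Ne, Ideal.absNorm_eq_zero_iff]; exact h𝔟
    exact_mod_cast Nat.pos_of_ne_zero this
  have hn : (0 : ℝ) < Module.finrank ℚ K := by exact_mod_cast Module.finrank_pos
  obtain ⟨n, hnd⟩ : ∃ n : ℝ, n = Module.finrank ℚ K := ⟨_, rfl⟩
  obtain ⟨N, hNd⟩ : ∃ N : ℝ, N = (Ideal.absNorm 𝔟 : ℝ) := ⟨_, rfl⟩
  obtain ⟨V, hVd⟩ : ∃ V : ℝ, V = VK K := ⟨_, rfl⟩
  have hcount : Countable (𝓞 K) := (coE K).countable_iff.mpr inferInstance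
  obtain ⟨h1, h2, h3⟩ := hU (fun _ => 0) (fun _ => 0) (fun _ => 0) (fun J => tr K (qt 𝔟 (gen J))) 1
    (fun J => tr_le _) 2 (by simp)
  obtain ⟨F, hF⟩ : ∃ F : PP K → ℝ, F = fun P => Real.exp (Module.finrank ℚ K * P.1) * nz (sc (el K P) * LC C) := ⟨_, rfl⟩
  have hth : ∀ P : PP K, ∑' x : {x : 𝓞 K // x ≠ 0}, tr K (qt 𝔟 (gen (toP x))) *
      NG.Fz (fun _ => 0) (fun _ => 0) (fun _ => 0) 2 (av x.1) P = ((F P : ℝ) : ℂ) := by
    intro P
    rw [tr_th hL P, hF]
  have hcont : Continuous fun P : PP K => ((F P : ℝ) : ℂ) := by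
    have h4 : Continuous (el K) := (el K).continuous_of_finiteDimensional
    have hLne : (LC C).det ≠ 0 := by
      have := B_ne hL (fun _ => 0)
      rw [sc_zero, one_mul] at this
      exact this
    have h5 := (SP_cont X0_le hLne (wσ (fun _ : InfinitePlace K => (0 : ℝ))) (lk_adm (K := K) (fun _ => 0))
      (fun _ => 0)).comp h4
    rw [hF]
    push_cast
    refine Continuous.mul (by fun_prop) ?_
    refine h5.congr fun P => ?_
    rw [Function.comp_apply, SP_nz]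
  have hint : Integrable (fun P : PP K => ((F P : ℝ) : ℂ)) (volume.restrict (S0 K)) := by
    have h5 := Pool.Agent.Y773.integrable_tsum h1 h2 (by
      simp_rw [hth]
      exact hcont.aestronglyMeasurable)
    simp_rw [hth] at h5
    exact h5
  simp_rw [hth] at h3
  have hintR : Integrable F (volume.restrict (S0 K)) := by
    have := hint.re
    refine this.congr (Eventually.of_forall fun P => ?_)
    simp
  refine ⟨∫ P in S0 K, F P, ?_, ?_⟩
  · rw [← integral_complex_ofReal]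
    exact h3
  · obtain ⟨P0, hP0⟩ : ∃ P0 : ℝ, P0 = 2 / n * Real.log (1 / (2 * V * N)) := ⟨_, rfl⟩
    rw [← hNd, ← hVd, ← hnd]
    have hV' : 0 < V := by rw [hVd]; exact hV
    have hN' : 0 < N := by rw [hNd]; exact hN
    have hn' : 0 < n := by rw [hnd]; exact hn
    have hexp : Real.exp (n * P0 / 2) = 1 / (2 * V * N) := by
      have e1 : n * P0 / 2 = Real.log (1 / (2 * V * N)) := by
        rw [hP0]
        field_simp
      rw [e1, Real.exp_log (by positivity)]
    obtain ⟨S1, hS1⟩ : ∃ S1 : Set (PP K), S1 = Icc (P0 - 1) P0 ×ˢ cube K := ⟨_, rfl⟩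
    have hS01 : S1 ⊆ S0 K := by
      rw [hS1, S0_eq]
      exact Set.prod_mono (subset_univ _) le_rfl
    have hcm : MeasurableSet (cube K) := by
      rw [cube_eq]
      exact MeasurableSet.univ_pi fun _ => measurableSet_Ico
    have hSm : MeasurableSet S1 := by
      rw [hS1]
      exact measurableSet_Icc.prod hcm
    have hvol : (volume : Measure (PP K)) S1 = 1 := by
      rw [hS1, Measure.volume_eq_prod, Measure.prod_prod, Real.volume_Icc, vol_cube]
      have : P0 - (P0 - 1) = 1 := by ring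
      rw [this]
      simp
    have hlow : ∀ P ∈ S1, Real.exp (-(n / 2)) / (4 * V ^ 2 * N ^ 2) ≤ F P := by
      intro P hP
      rw [hS1] at hP
      obtain ⟨⟨hp1, hp2⟩, -⟩ := hP
      have hdet : |(sc (el K P) * LC C).det| = Real.exp (n * P.1 / 2) * (V * N) := by
        rw [B_det hL]
        unfold sy
        rw [sum_el, hVd, hNd, hnd]
      have e1 : Real.exp (n * P.1 / 2) ≤ 1 / (2 * V * N) := by
        rw [← hexp]
        apply Real.exp_le_exp.2
        have := mul_le_mul_of_nonneg_left hp2 hn'.le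
        linarith
      have e2 : |(sc (el K P) * LC C).det| ≤ 1 / 2 := by
        rw [hdet]
        calc _ ≤ 1 / (2 * V * N) * (V * N) := mul_le_mul_of_nonneg_right e1 (by positivity)
          _ = 1 / 2 := by field_simp
      have e3 := nz_low (B_ne hL _) e2
      rw [hdet] at e3
      have e4 : Real.exp (-(n / 2)) * (1 / (2 * V * N)) ≤ Real.exp (n * P.1 / 2) := by
        rw [← hexp, ← Real.exp_add]
        apply Real.exp_le_exp.2
        have := mul_le_mul_of_nonneg_left hp1 hn'.le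
        linarith
      rw [hF]
      simp only
      rw [← hnd]
      calc Real.exp (-(n / 2)) / (4 * V ^ 2 * N ^ 2) =
          (Real.exp (-(n / 2)) * (1 / (2 * V * N))) * (1 / (2 * (V * N))) := by field_simp; ring
        _ ≤ Real.exp (n * P.1 / 2) * (1 / (2 * (V * N))) := mul_le_mul_of_nonneg_right e4 (by positivity)
        _ = Real.exp (n * P.1) * ((Real.exp (n * P.1 / 2) * (V * N))⁻¹ / 2) := by
            have e5 : Real.exp (n * P.1) = Real.exp (n * P.1 / 2) * Real.exp (n * P.1 / 2) := by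
              rw [← Real.exp_add]
              congr 1
              ring
            rw [e5]
            have := (Real.exp_pos (n * P.1 / 2)).ne'
            field_simp
        _ ≤ _ := mul_le_mul_of_nonneg_left e3 (Real.exp_pos _).le
    have hI1 : Real.exp (-(n / 2)) / (4 * V ^ 2 * N ^ 2) ≤ ∫ P in S1, F P := by
      have h5 := setIntegral_ge_of_const_le (μ := (volume : Measure (PP K))) hSm (by rw [hvol]; exact ENNReal.one_ne_top) hlow
        (IntegrableOn.mono_set hintR hS01)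
      rw [Measure.real, hvol, ENNReal.toReal_one, one_smul] at h5
      exact h5
    have hI2 : ∫ P in S1, F P ≤ ∫ P in S0 K, F P := by
      refine setIntegral_mono_set hintR ?_ hS01.eventuallyLE
      refine Eventually.of_forall fun P => ?_
      rw [hF]
      exact mul_nonneg (Real.exp_pos _).le (nz_nonneg _)
    have h6 := hI1.trans hI2
    calc Real.exp (-(n / 2)) / (4 * V ^ 2) = N ^ 2 * (Real.exp (-(n / 2)) / (4 * V ^ 2 * N ^ 2)) := by field_simp
      _ ≤ _ := mul_le_mul_of_nonneg_left h6 (by positivity)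

lemma Gz_two_le : ‖NG.Gz (K := K) (fun _ => 0) (fun _ => 0) (fun _ => 0) 2‖ ≤ 1 := by
  unfold NG.Gz
  rw [norm_prod]
  refine Finset.prod_le_one (fun w _ => norm_nonneg _) fun w _ => ?_
  have hπ : 1 ≤ Real.pi := by linarith [Real.pi_gt_three]
  have hm : w.mult = 1 ∨ w.mult = 2 := by
    unfold InfinitePlace.mult
    split_ifs
    · exact Or.inl rfl
    · exact Or.inr rfl
  rcases hm with hm | hm
  · rw [hm]
    simp only [Nat.cast_one, Real.sqrt_one, ofReal_one, one_mul, ofReal_zero, zero_mul, add_zero, mul_zero, sub_zero,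
      Nat.cast_zero, Complex.one_cpow]
    rw [Complex.Gammaℝ_def]
    norm_num
    rw [Complex.cpow_neg_one, norm_inv, Complex.norm_real, Real.norm_of_nonneg Real.pi_pos.le]
    exact inv_le_one_of_one_le₀ hπ
  · rw [hm]
    simp only [Nat.cast_ofNat, ofReal_zero, zero_mul, add_zero, mul_zero, sub_zero,
      Nat.cast_zero, Complex.one_cpow, one_mul]
    have e1 : (2 : ℂ) * 2 = 4 := by norm_num
    rw [Complex.Gammaℝ_def, e1, norm_mul]
    have e2 : ‖((Real.sqrt 2 : ℝ) : ℂ) ^ (-(4 : ℂ))‖ ≤ 1 := by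
      rw [Complex.norm_cpow_eq_rpow_re_of_pos (by positivity)]
      apply Real.rpow_le_one_of_one_le_of_nonpos
      · rw [Real.one_le_sqrt]; norm_num
      · simp
    have e3 : ‖(Real.pi : ℂ) ^ (-(4 : ℂ) / 2) * Complex.Gamma (4 / 2)‖ ≤ 1 := by
      have e4 : (4 : ℂ) / 2 = 1 + 1 := by norm_num
      have e5 : Complex.Gamma (1 + 1) = 1 := by
        rw [Complex.Gamma_add_one 1 one_ne_zero, Complex.Gamma_one, mul_one]
      rw [e4, e5, mul_one, Complex.norm_cpow_eq_rpow_re_of_pos Real.pi_pos]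
      apply Real.rpow_le_one_of_one_le_of_nonpos hπ
      norm_num
    calc _ ≤ (1 : ℝ) * 1 := mul_le_mul e2 e3 (norm_nonneg _) zero_le_one
      _ = 1 := one_mul _

/-- the class number -/
theorem cls_bound {c0 : ℝ} (hc0 : 0 < c0) (hU : UnfC K c0) :
    (Fintype.card (ClassGroup (𝓞 K)) : ℝ) ≤ c0 * (4 * VK K ^ 2 * Real.exp (5 * Module.finrank ℚ K)) := by
  classical
  obtain ⟨𝔟, hreps, -⟩ := exists_reps (K := K) (𝔣 := ⊤) top_ne_bot
  have hV := VK_pos (K := K)
  choose I hI1 hI2 using fun c => cls_low hU (hreps.ne_bot c)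
  obtain ⟨n, hnd⟩ : ∃ n : ℝ, n = Module.finrank ℚ K := ⟨_, rfl⟩
  have hn : 0 < n := by rw [hnd]; exact_mod_cast Module.finrank_pos
  have h1 := sum_classes (K := K) hreps tr_le (s := 2) (by simp)
  have h2 : ((∑ c, (Ideal.absNorm (𝔟 c) : ℝ) ^ 2 * I c : ℝ) : ℂ) =
      c0 * (NG.Gz (K := K) (fun _ => 0) (fun _ => 0) (fun _ => 0) 2 * LI (tr K) 2) := by
    rw [← h1, Finset.mul_sum, Finset.mul_sum, ofReal_sum]
    refine Finset.sum_congr rfl fun c _ => ?_
    rw [ofReal_mul, hI1 c]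
    have e1 : ((Ideal.absNorm (𝔟 c) : ℕ) : ℂ) ^ (2 : ℂ) = (((Ideal.absNorm (𝔟 c) : ℝ) ^ 2 : ℝ) : ℂ) := by
      push_cast
      exact_mod_cast Complex.cpow_natCast ((Ideal.absNorm (𝔟 c) : ℕ) : ℂ) 2
    rw [e1]
    ring
  have h3 : (Fintype.card (ClassGroup (𝓞 K)) : ℝ) * (Real.exp (-(n / 2)) / (4 * VK K ^ 2)) ≤
      ∑ c, (Ideal.absNorm (𝔟 c) : ℝ) ^ 2 * I c := by
    rw [← nsmul_eq_mul, ← Finset.card_univ, ← Finset.sum_const]
    refine Finset.sum_le_sum fun c _ => ?_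
    rw [hnd]
    exact hI2 c
  have h4 : ∑ c, (Ideal.absNorm (𝔟 c) : ℝ) ^ 2 * I c ≤ c0 * Real.exp (4 * n) := by
    have h5 := congrArg norm h2
    rw [Complex.norm_real, norm_mul, norm_mul, Complex.norm_real, Real.norm_of_nonneg hc0.le] at h5
    calc _ ≤ ‖∑ c, (Ideal.absNorm (𝔟 c) : ℝ) ^ 2 * I c‖ := Real.le_norm_self _
      _ = _ := h5
      _ ≤ c0 * (1 * Real.exp (4 * n)) := by
          refine mul_le_mul_of_nonneg_left ?_ hc0.le
          refine mul_le_mul Gz_two_le ?_ (norm_nonneg _) zero_le_one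
          rw [hnd]
          exact LI_tr
      _ = _ := by rw [one_mul]
  have h5 := h3.trans h4
  rw [← mul_div_assoc, div_le_iff₀ (by positivity)] at h5
  rw [← hnd]
  have h6 : Real.exp (-(n / 2)) * Real.exp (n / 2) = 1 := by
    rw [← Real.exp_add, neg_add_cancel, Real.exp_zero]
  have h7 : Real.exp (4 * n) * Real.exp (n / 2) ≤ Real.exp (5 * n) := by
    rw [← Real.exp_add]
    apply Real.exp_le_exp.2
    linarith
  calc (Fintype.card (ClassGroup (𝓞 K)) : ℝ) = (Fintype.card (ClassGroup (𝓞 K)) : ℝ) * Real.exp (-(n / 2)) *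
        Real.exp (n / 2) := by rw [mul_assoc, h6, mul_one]
    _ ≤ (c0 * Real.exp (4 * n) * (4 * VK K ^ 2)) * Real.exp (n / 2) :=
        mul_le_mul_of_nonneg_right h5 (Real.exp_pos _).le
    _ = c0 * (4 * VK K ^ 2 * (Real.exp (4 * n) * Real.exp (n / 2))) := by ring
    _ ≤ _ := by gcongr

end Run7.h343.NU
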