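import Pool.Agent.Run7.h343.NU.Fin

/-!
The constants are polynomial in the discriminant.
-/

set_option autoImplicit false
set_option linter.unusedSectionVars false

open NumberField Complex Filter Topology MeasureTheory Set Asymptotics

namespace Run7.h343.NG.U

open Run7.h343.NF
open Run7.h343.NU (UnfC Co5 Co5_pos CGU CGU_nonneg Co4 Co3 Co2 Co1 Eu Eu_one_le Cpn Cpn_pos VK_one_le VK_sq)

/-! ### polynomial bounds for the constants -/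

/-- the constant -/
noncomputable def B1 : ℝ := Real.sqrt (64 * Real.exp (2 * Real.pi * 1) ^ 7 * 11)

/-- the constant -/
noncomputable def B4 (n : ℕ) : ℝ := 8 ^ n * B1 * (12 * 2 ^ n) ^ n + 3 * 2 ^ n + 1

/-- the constant -/
noncomputable def B5 (n : ℕ) : ℝ := Real.exp (Real.pi * n) ^ 2 * (B4 n + (Real.exp (4 * Real.pi * n) * 2 ^ n) ^ 2)

lemma B1_pos : 0 < B1 := by
  unfold B1
  positivity

lemma B4_pos (n : ℕ) : 0 < B4 n := by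
  unfold B4
  have := B1_pos
  positivity

lemma B5_pos (n : ℕ) : 0 < B5 n := by
  unfold B5
  have := B4_pos n
  positivity

lemma sqrt_Cmu {CG : ℝ} (h : 0 ≤ CG) : Real.sqrt (NU.Cmu CG) ≤ B1 * (1 + CG) := by
  apply Real.sqrt_le_iff.2
  have hB := B1_pos
  refine ⟨by positivity, ?_⟩
  unfold B1
  rw [mul_pow, Real.sq_sqrt (by positivity)]
  unfold NU.Cmu
  have hE : 0 ≤ Real.exp (2 * Real.pi * 1) ^ 7 := by positivity
  nlinarith [mul_nonneg hE (by nlinarith : 0 ≤ 11 * (1 + CG) ^ 2 - (11 + CG ^ 2))]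

lemma Eu_le (n : ℕ) {CG : ℝ} (h : 0 ≤ CG) : Eu n CG ≤ 12 * 2 ^ n * (1 + CG) ^ 3 := by
  unfold Eu CR
  obtain ⟨x, hx⟩ : ∃ x, x = 1 + CG := ⟨_, rfl⟩
  have hx1 : 1 ≤ x := by rw [hx]; linarith
  rw [← hx]
  have h2 : (1 : ℝ) ≤ 2 ^ n := one_le_pow₀ (by norm_num)
  have h3 : Real.log (4 * x * 2 ^ n) ≤ 4 * x * 2 ^ n := by
    have := Real.log_le_sub_one_of_pos (x := 4 * x * 2 ^ n) (by positivity)
    linarith
  have hπ : 3 < Real.pi := Real.pi_gt_three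
  have h4 : 8 * x ^ 2 / Real.pi ≤ 8 * x ^ 2 / 3 := by
    apply div_le_div_of_nonneg_left (by positivity) (by norm_num) hπ.le
  have h5 : 8 * x ^ 2 / Real.pi * Real.log (4 * x * 2 ^ n) ≤ 8 * x ^ 2 / 3 * (4 * x * 2 ^ n) := by
    refine mul_le_mul h4 h3 (Real.log_nonneg ?_) (by positivity)
    nlinarith
  have h6 : 8 * x ^ 2 / 3 * (4 * x * 2 ^ n) = 32 / 3 * (2 ^ n * x ^ 3) := by ring
  have h7 : 1 ≤ 2 ^ n * x ^ 3 := by
    have : 1 ≤ x ^ 3 := one_le_pow₀ hx1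
    nlinarith
  rw [h6] at h5
  linarith

lemma Co1_le (n : ℕ) {CG : ℝ} (h : 0 ≤ CG) : Co1 n CG ≤ 8 ^ n * B1 * (12 * 2 ^ n) ^ n * (1 + CG) ^ (3 * n + 3) := by
  unfold Co1
  have h1 := sqrt_Cmu h
  have h2 := Eu_le n h
  have h3 := Eu_one_le n h
  have h4 : Eu n CG ^ n ≤ (12 * 2 ^ n * (1 + CG) ^ 3) ^ n := pow_le_pow_left₀ (by linarith) h2 n
  have hB := B1_pos
  calc (1 + CG) ^ 2 * 8 ^ n * Real.sqrt (NU.Cmu CG) * Eu n CG ^ n ≤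
      (1 + CG) ^ 2 * 8 ^ n * (B1 * (1 + CG)) * (12 * 2 ^ n * (1 + CG) ^ 3) ^ n := by
        have : 0 ≤ Eu n CG ^ n := pow_nonneg (by linarith) n
        gcongr
    _ = _ := by
        rw [mul_pow _ ((1 + CG) ^ 3) n, ← pow_mul]
        ring

lemma Co4_le (n : ℕ) {CG : ℝ} (h : 0 ≤ CG) : Co4 n CG ≤ B4 n * (1 + CG) ^ (3 * n + 3) := by
  unfold Co4 Co3 Co2
  have h1 := Co1_le n h
  obtain ⟨x, hx⟩ : ∃ x, x = 1 + CG := ⟨_, rfl⟩
  have hx1 : 1 ≤ x := by rw [hx]; linarith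
  have hCG : CG ≤ x := by rw [hx]; linarith
  rw [← hx] at h1 ⊢
  have h2 : x ^ 2 ≤ x ^ (3 * n + 3) := pow_le_pow_right₀ hx1 (by omega)
  have h3 : x ≤ x ^ (3 * n + 3) := le_self_pow₀ hx1 (by omega)
  have h4 : CG * x ≤ x ^ (3 * n + 3) := by
    refine le_trans ?_ h2
    rw [sq]
    exact mul_le_mul_of_nonneg_right hCG (by linarith)
  have h5 : (0 : ℝ) < 2 ^ n := by positivity
  unfold B4
  have h6 : 2 * CG * 2 ^ n * x + CG * 2 ^ n * x = 3 * 2 ^ n * (CG * x) := by ring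
  have h7 : 3 * 2 ^ n * (CG * x) ≤ 3 * 2 ^ n * x ^ (3 * n + 3) := by gcongr
  calc _ = x + Co1 n CG + (2 * CG * 2 ^ n * x + CG * 2 ^ n * x) := by ring
    _ ≤ x ^ (3 * n + 3) + 8 ^ n * B1 * (12 * 2 ^ n) ^ n * x ^ (3 * n + 3) + 3 * 2 ^ n * x ^ (3 * n + 3) := by
        rw [h6]
        linarith
    _ = _ := by ring

lemma Co5_le (n : ℕ) {CG : ℝ} (h : 0 ≤ CG) : Co5 n CG ≤ B5 n * (1 + CG) ^ (3 * n + 3) := by
  unfold Co5 B5
  have h1 := Co4_le n h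
  obtain ⟨x, hx⟩ : ∃ x, x = 1 + CG := ⟨_, rfl⟩
  have hx1 : 1 ≤ x := by rw [hx]; linarith
  have hCG : CG ≤ x := by rw [hx]; linarith
  rw [← hx] at h1 ⊢
  have h2 : x ^ 2 ≤ x ^ (3 * n + 3) := pow_le_pow_right₀ hx1 (by omega)
  have h3 : (Real.exp (4 * Real.pi * n) * (CG * 2 ^ n)) ^ 2 ≤ (Real.exp (4 * Real.pi * n) * 2 ^ n) ^ 2 * x ^ (3 * n + 3) := by
    calc (Real.exp (4 * Real.pi * n) * (CG * 2 ^ n)) ^ 2 = (Real.exp (4 * Real.pi * n) * 2 ^ n) ^ 2 * CG ^ 2 := by ring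
      _ ≤ (Real.exp (4 * Real.pi * n) * 2 ^ n) ^ 2 * x ^ 2 := by gcongr
      _ ≤ _ := mul_le_mul_of_nonneg_left h2 (by positivity)
  calc _ ≤ Real.exp (Real.pi * n) ^ 2 * (B4 n * x ^ (3 * n + 3) +
        (Real.exp (4 * Real.pi * n) * 2 ^ n) ^ 2 * x ^ (3 * n + 3)) := by gcongr
    _ = _ := by ring

attribute [local instance] decEm

variable {K : Type} [Field K] [NumberField K]

lemma Co5_CGU : Co5 (Fintype.card (K →+* ℂ)) (CGU K) ≤ B5 (Fintype.card (K →+* ℂ)) *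
    (1 + Cpn (Fintype.card (K →+* ℂ))) ^ (3 * Fintype.card (K →+* ℂ) + 3) * VK K ^ (3 * Fintype.card (K →+* ℂ) + 3) := by
  obtain ⟨n, hn⟩ : ∃ n, n = Fintype.card (K →+* ℂ) := ⟨_, rfl⟩
  rw [← hn]
  refine (Co5_le n (CGU_nonneg (K := K))).trans ?_
  have h1 : 1 + CGU K ≤ (1 + Cpn n) * VK K := by
    unfold CGU
    rw [← hn]
    have := VK_one_le (K := K)
    linarith
  have h2 := CGU_nonneg (K := K)
  have h3 := B5_pos n
  calc B5 n * (1 + CGU K) ^ (3 * n + 3) ≤ B5 n * ((1 + Cpn n) * VK K) ^ (3 * n + 3) := by gcongr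
    _ = _ := by rw [mul_pow]; ring

/-- the discriminant -/
lemma sqrt_VK (a : ℕ) : Real.sqrt (VK K ^ a) = |(discr K : ℝ)| ^ ((a : ℝ) / 4) := by
  have h1 := VK_pos (K := K)
  rw [← VK_sq, Real.sqrt_eq_rpow, ← Real.rpow_natCast, ← Real.rpow_natCast, ← Real.rpow_mul h1.le, ← Real.rpow_mul h1.le]
  congr 1
  push_cast
  ring

/-- the constant of the field -/
noncomputable def Bn (n : ℕ) : ℝ :=
  8 * Real.exp (5 * n) * 2 ^ (2 * n + 1) * (4 + n) * Real.sqrt (B5 n * (1 + Cpn n) ^ (3 * n + 3))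

lemma Bn_pos (n : ℕ) : 0 < Bn n := by
  unfold Bn
  have h1 := B5_pos n
  have h2 := Cpn_pos n
  positivity

/-- the constant of the main theorem, polynomial in the discriminant -/
theorem Cmu_le (κ : InfinitePlace K → ℤ) {ε : ℝ} (hε : 0 < ε) :
    Cmu κ ε ≤ Bn (Fintype.card (K →+* ℂ)) * (1 + 2 / ε) ^ 2 * (cA (mq κ) * cm K (mq κ) * Kf (mq κ)) *
      |(discr K : ℝ)| ^ (3 * (Fintype.card (K →+* ℂ) + 2 : ℝ) / 4) := by
  obtain ⟨n, hn⟩ : ∃ n, n = Fintype.card (K →+* ℂ) := ⟨_, rfl⟩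
  have hco := Co5_CGU (K := K)
  have hVK := VK_pos (K := K)
  have hKf := Kf_pos (mq κ)
  have hcA := cA_pos (mq κ)
  have hcm := cm_pos (mq κ)
  have hB5 := B5_pos n
  have hCp := Cpn_pos n
  unfold Cmu C1u Cth Bn
  rw [← hn] at hco ⊢
  obtain ⟨b, hb⟩ : ∃ b, b = B5 n * (1 + Cpn n) ^ (3 * n + 3) := ⟨_, rfl⟩
  rw [← hb] at hco ⊢
  have hb0 : 0 < b := by rw [hb]; positivity
  have h1 : VK K ^ 2 * Real.sqrt (Kf (mq κ) ^ 2 * Co5 n (CGU K) / VK K) ≤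
      Kf (mq κ) * Real.sqrt b * |(discr K : ℝ)| ^ (3 * (n + 2 : ℝ) / 4) := by
    have e1 : (3 * (n + 2 : ℝ) / 4) = ((3 * n + 6 : ℕ) : ℝ) / 4 := by push_cast; ring
    rw [e1, ← sqrt_VK]
    have e2 : VK K ^ 2 = Real.sqrt (VK K ^ 4) := by
      have : VK K ^ 4 = (VK K ^ 2) ^ 2 := by ring
      rw [this, Real.sqrt_sq (by positivity)]
    have e3 : Kf (mq κ) = Real.sqrt (Kf (mq κ) ^ 2) := (Real.sqrt_sq hKf.le).symm
    rw [e2, ← Real.sqrt_mul (by positivity)]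
    nth_rewrite 2 [e3]
    rw [← Real.sqrt_mul (by positivity), ← Real.sqrt_mul (by positivity)]
    apply Real.sqrt_le_sqrt
    calc VK K ^ 4 * (Kf (mq κ) ^ 2 * Co5 n (CGU K) / VK K) = VK K ^ 3 * Kf (mq κ) ^ 2 * Co5 n (CGU K) := by
          field_simp
      _ ≤ VK K ^ 3 * Kf (mq κ) ^ 2 * (b * VK K ^ (3 * n + 3)) := by gcongr
      _ = _ := by ring
  obtain ⟨X, hX⟩ : ∃ X, X = Real.sqrt (Kf (mq κ) ^ 2 * Co5 n (CGU K) / VK K) := ⟨_, rfl⟩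
  rw [← hX] at h1 ⊢
  obtain ⟨D, hD⟩ : ∃ D, D = |(discr K : ℝ)| ^ (3 * (n + 2 : ℝ) / 4) := ⟨_, rfl⟩
  rw [← hD] at h1 ⊢
  calc 8 * Real.exp (5 * n) * VK K ^ 2 * (cA (mq κ) * 2 ^ (2 * n + 1) * cm K (mq κ) * (X * (4 + n) * (1 + 2 / ε) ^ 2)) =
      (8 * Real.exp (5 * n) * 2 ^ (2 * n + 1) * (4 + n) * (1 + 2 / ε) ^ 2 * (cA (mq κ) * cm K (mq κ))) * (VK K ^ 2 * X) := by
        ring
    _ ≤ (8 * Real.exp (5 * n) * 2 ^ (2 * n + 1) * (4 + n) * (1 + 2 / ε) ^ 2 * (cA (mq κ) * cm K (mq κ))) *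
        (Kf (mq κ) * Real.sqrt b * D) := mul_le_mul_of_nonneg_left h1 (by positivity)
    _ = _ := by ring

end Run7.h343.NG.U
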