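import Pool.Agent.Run7.h343.NU.Bd
import Pool.Agent.Run7.h343.NU.Disc
import Pool.Agent.Run7.h343.NG.Kb

/-!
The bound for the weighted theta series of number fields: constants which are polynomial in the
discriminant.
-/

set_option autoImplicit false
set_option linter.unusedSectionVars false

namespace Run7.h343.NU

open NumberField Finset Complex
open Run7.h343.NF hiding TT TT_pois TT_mid TT_triv off_triv off_triv2 Th Th_sq NT NT_triv Th_fe Th_bound NT_all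
open Run7.h343.NG hiding TT_pois TT_mid TT_triv off_triv off_triv2 Th_bound NT_all off_main off_all off_sum SX_bound SP_K nz_nonneg

section gen

variable {ι : Type} [Fintype ι] [DecidableEq ι]

/-- the constant of the weighted theta bound -/
noncomputable def Co5 (n : ℕ) (CG : ℝ) : ℝ :=
  Real.exp (Real.pi * n) ^ 2 * (Co4 n CG + (Real.exp (4 * Real.pi * n) * (CG * 2 ^ n)) ^ 2)

lemma Co5_pos (n : ℕ) {CG : ℝ} (h : 0 ≤ CG) : 0 < Co5 n CG := by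
  unfold Co5
  have h1 := Co4_pos n h
  have h2 := Real.exp_pos (Real.pi * n)
  positivity

theorem SX_bound (o : ι) {CG : ℝ} (hCG : 0 ≤ CG) : ∀ p : ℕ, p.Prime → 7 ≤ p →
    ∀ ν : ℕ, 1 ≤ ν → ∀ χ : DirichletCharacter ℂ (p ^ ν), χ.IsPrimitive →
    ∀ (A : Matrix ι ι ℝ) (E : Matrix ι ι ℤ) (σ : ι → ℝ) (S : ℝ), Lb CG A → WR p o CG ν (AE A E) →
      WR p o CG ν (Aq (AE A E) σ o ((p : ℝ) ^ ν)) → (∀ i, Real.sqrt (1 + σ i ^ 2) ≤ S) →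
      ∀ (Ξ : (ι → ℤ) → ℂ) (T : Type) [Fintype T] (r : T → ι → ℤ) (u : T → ℂ), Spl Ξ χ o T r E u →
      1 ≤ Fintype.card T → |(AE A E).det| = Fintype.card T * |A.det| →
      ∀ B : ι → ℂ, (∀ i, ‖B i‖ ≤ 1) →
      ‖SX Ξ A σ B‖ ^ 2 * |A.det| ≤ Co5 (Fintype.card ι) CG * (Fintype.card T : ℝ) ^ 4 *
        (p : ℝ) ^ (Fintype.card ι + 4) * (1 + ν) ^ 2 * S ^ Fintype.card ι *
        ((p : ℝ) ^ ν) ^ (19 / 58 : ℝ) * min |A.det|⁻¹ (min 1 |(Aq A σ o ((p : ℝ) ^ ν)).det|⁻¹) := by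
  have hall := NT_all o hCG
  obtain ⟨n, hn⟩ : ∃ n, n = Fintype.card ι := ⟨_, rfl⟩
  rw [← hn] at hall ⊢
  obtain ⟨C1, hC1d⟩ : ∃ C1, C1 = Co4 n CG := ⟨_, rfl⟩
  have hC1 : 0 < C1 := by rw [hC1d]; exact Co4_pos n hCG
  obtain ⟨e1, he1⟩ : ∃ e1, e1 = Real.exp (Real.pi * n) := ⟨_, rfl⟩
  obtain ⟨e4, he4⟩ : ∃ e4, e4 = Real.exp (4 * Real.pi * n) := ⟨_, rfl⟩
  have he10 : 0 < e1 := by rw [he1]; exact Real.exp_pos _
  have he40 : 0 < e4 := by rw [he4]; exact Real.exp_pos _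
  have hCo : Co5 n CG = e1 ^ 2 * (C1 + (e4 * (CG * 2 ^ n)) ^ 2) := by rw [hC1d, he1, he4]; rfl
  rw [hCo]
  rw [← hC1d] at hall
  intro p hp hp7 ν hν χ hχ A E σ S hL hW hW' hσ Ξ T _ r u hS hT1 hdE B hB
  obtain ⟨F, hF⟩ : ∃ F : ℝ, F = (Fintype.card T : ℝ) := ⟨_, rfl⟩
  have hF1 : 1 ≤ F := by rw [hF]; exact_mod_cast hT1
  have hF0 : 0 < F := by linarith
  rw [← hF] at hdE ⊢
  have hp0 : (0 : ℝ) < p := by exact_mod_cast hp.pos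
  have hA := hL.det
  have hAE := hW.det
  obtain ⟨D, hD⟩ : ∃ D, D = |A.det| := ⟨_, rfl⟩
  have hD0 : 0 < D := by rw [hD]; exact abs_pos.2 hA
  rw [← hD] at hdE
  have hAq := Aq_det_ne hA σ o (P := (p : ℝ) ^ ν) (by positivity)
  obtain ⟨D', hD'⟩ : ∃ D', D' = |(Aq A σ o ((p : ℝ) ^ ν)).det| := ⟨_, rfl⟩
  have hD0' : 0 < D' := by rw [hD']; exact abs_pos.2 hAq
  have hdE' : |(Aq (AE A E) σ o ((p : ℝ) ^ ν)).det| = F⁻¹ * D' := by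
    rw [hD', Aq_det _ σ o (by positivity), Aq_det _ σ o (by positivity), hdE, ← hD]
    rw [mul_assoc F, mul_inv F]
    ring
  have hS1 : 1 ≤ S := by
    refine le_trans ?_ (hσ o)
    rw [Real.one_le_sqrt]
    nlinarith [sq_nonneg (σ o)]
  obtain ⟨M0, hM0⟩ : ∃ M0 : ℝ, M0 = (p : ℝ) ^ (n + 4) * (1 + ν) ^ 2 * S ^ n * ((p : ℝ) ^ ν) ^ (19 / 58 : ℝ) := ⟨_, rfl⟩
  have hM00 : 0 ≤ M0 := by rw [hM0]; positivity
  obtain ⟨mn, hmn⟩ : ∃ mn : ℝ, mn = min D⁻¹ (min 1 D'⁻¹) := ⟨_, rfl⟩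
  have hmn0 : 0 ≤ mn := by rw [hmn]; exact le_min (by positivity) (le_min zero_le_one (by positivity))
  obtain ⟨CH, hCH⟩ : ∃ CH : ℝ, CH = e4 * (CG * 2 ^ n) * F := ⟨_, rfl⟩
  have hCH0 : 0 ≤ CH := by rw [hCH]; positivity
  obtain ⟨M, hM⟩ : ∃ M : ℝ, M = Real.sqrt ((C1 + CH ^ 2) * M0 * mn / D) := ⟨_, rfl⟩
  have hM0' : 0 ≤ M := by rw [hM]; exact Real.sqrt_nonneg _
  have hpiece : ∀ a : T, u a ≠ 0 → ‖Th χ o (AE A E) σ (zB B - em A (r a)) (eB σ B)‖ ≤ M := by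
    intro a ha
    have h1 : ‖Th χ o (AE A E) σ (zB B - em A (r a)) (eB σ B)‖ ≤ CH * |(AE A E).det|⁻¹ := by
      refine (Th_piece χ o hA σ (zB B) (eB σ B) (hS.Einj a) (hS.ne ha)).trans ?_
      rw [hdE]
      have g1 : Real.exp (Real.pi * ‖zB B‖ ^ 2) ≤ e4 := by
        rw [he4]
        apply Real.exp_le_exp.2
        have h3 := mul_le_mul_of_nonneg_left (zB_norm hB) Real.pi_pos.le
        have h4 : (0 : ℝ) ≤ Real.pi * n := by positivity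
        rw [← hn] at h3
        linarith
      have g2 := nz_half hL
      rw [← hn, ← hD] at g2
      calc _ ≤ e4 * (CG * 2 ^ n * D⁻¹) := mul_le_mul g1 g2 (nz_nonneg _) he40.le
        _ = CH * (F * D)⁻¹ := by
            rw [hCH]
            field_simp
    have h2 : ‖Th χ⁻¹ o (Aq (AE A E) σ o ((p : ℝ) ^ ν)) (-σ) (dz σ (eB σ B)) (de σ (zB B - em A (r a)))‖ ≤
        CH * |(Aq (AE A E) σ o ((p : ℝ) ^ ν)).det|⁻¹ := by
      refine (dual_piece hp hν χ o hAE σ hB _).trans ?_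
      have g2 := nz_half hW'.lb
      rw [← hn] at g2 ⊢
      rw [← he4]
      calc _ ≤ e4 * (CG * 2 ^ n * |(Aq (AE A E) σ o ((p : ℝ) ^ ν)).det|⁻¹) :=
            mul_le_mul_of_nonneg_left g2 he40.le
        _ ≤ e4 * (CG * 2 ^ n) * F * |(Aq (AE A E) σ o ((p : ℝ) ^ ν)).det|⁻¹ := by
            have : e4 * (CG * 2 ^ n) ≤ e4 * (CG * 2 ^ n) * F := le_mul_of_one_le_right (by positivity) hF1
            have h5 : 0 ≤ |(Aq (AE A E) σ o ((p : ℝ) ^ ν)).det|⁻¹ := by positivity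
            nlinarith [mul_le_mul_of_nonneg_right this h5]
        _ = _ := by rw [hCH]
    have h3 := hall p hp hp7 ν hν χ hχ (AE A E) σ (zB B - em A (r a)) (eB σ B) S CH hW hW' hσ hCH0 h1 h2
    unfold NT at h3
    rw [hdE, hdE'] at h3
    have h4 : min (F * D)⁻¹ (min 1 (F⁻¹ * D')⁻¹) ≤ F * mn := by
      rw [hmn, mul_min_of_nonneg _ _ hF0.le, mul_min_of_nonneg _ _ hF0.le]
      refine min_le_min ?_ (min_le_min ?_ ?_)
      · rw [mul_inv]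
        have : F⁻¹ ≤ F := (inv_le_one_of_one_le₀ hF1).trans hF1
        exact mul_le_mul_of_nonneg_right this (by positivity)
      · rw [mul_one]; exact hF1
      · rw [mul_inv, inv_inv]
    have h5 : (C1 + CH ^ 2) * (p : ℝ) ^ (n + 4) * (1 + ν) ^ 2 * S ^ n * ((p : ℝ) ^ ν) ^ (19 / 58 : ℝ) =
        (C1 + CH ^ 2) * M0 := by rw [hM0]; ring
    rw [h5] at h3
    have h6 : 0 ≤ (C1 + CH ^ 2) * M0 := by positivity
    have h7 := h3.trans (mul_le_mul_of_nonneg_left h4 h6)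
    rw [hM]
    apply Real.le_sqrt_of_sq_le
    rw [le_div_iff₀ hD0]
    have h8 : F * (‖Th χ o (AE A E) σ (zB B - em A (r a)) (eB σ B)‖ ^ 2 * D) ≤ F * ((C1 + CH ^ 2) * M0 * mn) := by
      linarith
    exact le_of_mul_le_mul_left h8 hF0
  have h1 := SX_le_pieces hS hA σ hB hM0' hpiece
  rw [← hn, ← he1, ← hF] at h1
  have h2 := pow_le_pow_left₀ (norm_nonneg _) h1 2
  have h3 : M ^ 2 = (C1 + CH ^ 2) * M0 * mn / D := by rw [hM]; exact Real.sq_sqrt (by positivity)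
  rw [← hD, ← hD', ← hmn]
  calc ‖SX Ξ A σ B‖ ^ 2 * D ≤ (e1 * F * M) ^ 2 * D := mul_le_mul_of_nonneg_right h2 hD0.le
    _ = e1 ^ 2 * F ^ 2 * (C1 + CH ^ 2) * M0 * mn := by
        rw [mul_pow, mul_pow, h3]
        field_simp
    _ ≤ e1 ^ 2 * F ^ 2 * ((C1 + (e4 * (CG * 2 ^ n)) ^ 2) * F ^ 2) * M0 * mn := by
        have h5 : C1 + CH ^ 2 ≤ (C1 + (e4 * (CG * 2 ^ n)) ^ 2) * F ^ 2 := by
          rw [hCH, mul_pow _ F 2]
          have : C1 ≤ C1 * F ^ 2 := le_mul_of_one_le_right hC1.le (one_le_pow₀ hF1)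
          linarith
        gcongr
    _ = _ := by
        rw [hM0]
        ring

end gen

open Pool.Agent.Y773.G (cj rr mk_cj)

attribute [local instance] decEm

variable {K : Type} [Field K] [NumberField K]

/-- **the theta bound** -/
theorem SP_K (κ : InfinitePlace K → ℤ) : ∀ p : ℕ, p.Prime → 7 ≤ p →
    ∀ ν : ℕ, 1 ≤ ν → ∀ χ : DirichletCharacter ℂ (p ^ ν), χ.IsPrimitive →
    ∀ (o : K →+* ℂ) (C E : Matrix (K →+* ℂ) (K →+* ℂ) ℤ) (𝔟 𝔠 𝔭 : Ideal (𝓞 K)), IsL C 𝔟 → Chn p o ν (C * E) 𝔠 𝔭 →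
    ∀ (y σ : InfinitePlace K → ℝ) (S : ℝ), (∀ w, Real.sqrt (1 + σ w ^ 2) ≤ S) →
    ∀ (Ξ : ((K →+* ℂ) → ℤ) → ℂ) (T : Type) [Fintype T] (r : T → (K →+* ℂ) → ℤ) (u : T → ℂ), Spl Ξ χ o T r E u →
      1 ≤ Fintype.card T → |(E.det : ℝ)| = Fintype.card T →
      ‖SP Ξ (sc y * LC C) (wσ σ) (lk κ) (mq κ)‖ ^ 2 * |(sc y * LC C).det| ≤
        (Kf (mq κ) ^ 2 * Co5 (Fintype.card (K →+* ℂ)) (CGU K)) * (Fintype.card T : ℝ) ^ 4 * (p : ℝ) ^ (Fintype.card (K →+* ℂ) + 4) * (1 + ν) ^ 2 *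
        S ^ Fintype.card (K →+* ℂ) * ((p : ℝ) ^ ν) ^ (19 / 58 : ℝ) *
        min |(sc y * LC C).det|⁻¹ (min 1 |(Aq (sc y * LC C) (wσ σ) o ((p : ℝ) ^ ν)).det|⁻¹) := by
  have hKf := Kf_pos (mq κ)
  obtain ⟨G, hG⟩ : ∃ G, G = Co5 (Fintype.card (K →+* ℂ)) (CGU K) := ⟨_, rfl⟩
  have hsum : 0 < G := by rw [hG]; exact Co5_pos _ CGU_nonneg
  intro p hp hp7 ν hν χ hχ o C E 𝔟 𝔠 𝔭 hL h y σ S hS Ξ T _ r u hSpl hT hE
  have hp0 : (0 : ℝ) < p := by exact_mod_cast hp.pos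
  have hS0 : 0 ≤ S := (Real.sqrt_nonneg _).trans (hS (Classical.arbitrary _))
  have hne := B_ne hL y
  obtain ⟨D, hD⟩ : ∃ D, D = |(sc y * LC C).det| := ⟨_, rfl⟩
  have hD0 : 0 < D := by rw [hD]; exact abs_pos.2 hne
  obtain ⟨mn, hmn⟩ : ∃ mn, mn = min |(sc y * LC C).det|⁻¹ (min 1 |(Aq (sc y * LC C) (wσ σ) o ((p : ℝ) ^ ν)).det|⁻¹) :=
    ⟨_, rfl⟩
  have hmn0 : 0 ≤ mn := by
    rw [hmn]
    exact le_min (by positivity) (le_min zero_le_one (by positivity))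
  obtain ⟨W, hW⟩ : ∃ W, W = (Fintype.card T : ℝ) ^ 4 * (p : ℝ) ^ (Fintype.card (K →+* ℂ) + 4) *
    (1 + ν) ^ 2 * S ^ Fintype.card (K →+* ℂ) * ((p : ℝ) ^ ν) ^ (19 / 58 : ℝ) * mn := ⟨_, rfl⟩
  have hW0 : 0 ≤ W := by rw [hW]; positivity
  have hWR1 : WR p o (CGU K) ν (AE (sc y * LC C) E) := by
    rw [AE_LC]
    exact Chn_WR h y
  have hWR2 : WR p o (CGU K) ν (Aq (AE (sc y * LC C) E) (wσ σ) o ((p : ℝ) ^ ν)) := by
    rw [AE_LC]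
    exact Chn_WR' hp.pos h y σ
  have hdE : |(AE (sc y * LC C) E).det| = Fintype.card T * |(sc y * LC C).det| := by
    rw [AE_det, hE]
  have h2 : ∀ B : (K →+* ℂ) → ℂ, (∀ i, ‖B i‖ ≤ 1) → ‖SX Ξ (sc y * LC C) (wσ σ) B‖ ≤
      Real.sqrt (G * W / D) := by
    intro B hB
    have h3 := SX_bound o CGU_nonneg p hp hp7 ν hν χ hχ _ E (wσ σ) S (IsL_Lb hL y) hWR1 hWR2 (fun φ => hS _) Ξ T r u hSpl hT hdE B hB
    rw [← hmn, ← hD, ← hG] at h3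
    apply Real.le_sqrt_of_sq_le
    rw [le_div_iff₀ hD0]
    refine h3.trans ?_
    rw [hW]
    exact le_of_eq (by ring)
  have h3 := SP_le hSpl.bd hne (wσ σ) (lk_adm κ) (mq κ) h2
  have h4 := pow_le_pow_left₀ (norm_nonneg _) h3 2
  have h5 : (Real.sqrt (G * W / D)) ^ 2 = G * W / D := Real.sq_sqrt (by positivity)
  rw [← hmn, ← hD, ← hG]
  calc _ ≤ (Kf (mq κ) * Real.sqrt (G * W / D)) ^ 2 * D := mul_le_mul_of_nonneg_right h4 hD0.le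
    _ = (Kf (mq κ)) ^ 2 * G * W := by
        rw [mul_pow, h5]
        field_simp
    _ = _ := by rw [hW]; ring

end Run7.h343.NU
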