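import Pool.Agent.Run7.h343.NG.Fin
import Pool.Agent.Run7.h343.NU.Kb
import Pool.Agent.Run7.h343.NU.Cls

/-!
The partial `L`-functions with explicit constants.
-/

set_option autoImplicit false
set_option linter.unusedSectionVars false

open NumberField Complex Filter Topology MeasureTheory Set Asymptotics
open NumberField.Units NumberField.Units.dirichletUnitTheorem

namespace Run7.h343.NG.U

open Run7.h343.NF
open Run7.h343.NU (UnfC Co5 Co5_pos CGU CGU_nonneg)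

open Pool.Agent.Y773 (Idx el PP S0 PIdl gen gen_ne_zero span_gen xE unE toP unfold_P qt qt_spec qt_eq_bot isHaar_PP
  cube S0_eq integrable_exp_sub integral_exp_sub LI Reps)
open Pool.Agent.Y773.G (av av_pos sqrt_mult_pos xE_apply toP_xE coE summable_PIdl norm_absNorm_cpow sum_classes sum_el)

attribute [local instance] decEm

variable {K : Type} [Field K] [NumberField K]

/-- the Mellin transform, with the constant of the unfolding theorem -/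
theorem mellin_hz {c0 : ℝ} (hU : UnfC K c0) :
    ∀ (p : ℕ) (𝔪 𝔭 : Ideal (𝓞 K)) (ν : ℕ) (κ : InfinitePlace K → ℤ) (τ : InfinitePlace K → ℝ)
    (ψ : Ideal (𝓞 K) →*₀ ℂ) (𝔟 : Ideal (𝓞 K)) (χ : DirichletCharacter ℂ (p ^ ν)) (o : K →+* ℂ)
    (C E : Matrix (K →+* ℂ) (K →+* ℂ) ℤ) (T : Type) [Fintype T] (r : T → (K →+* ℂ) → ℤ) (u : T → ℂ),
      Dat p 𝔪 𝔭 ν κ τ ψ 𝔟 χ o C E T r u → ∀ (σ : InfinitePlace K → ℝ) (s : ℂ), 1 < s.re →
      MellinConvergent (hz κ ψ C σ τ) s ∧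
      cu κ τ ψ 𝔟 * mellin (hz κ ψ C σ τ) s = ((Module.finrank ℚ K / 2 * c0 : ℝ) : ℂ) * (NG.Gz (mq κ) σ τ s *
          ∑' J : PIdl K, ψ (qt 𝔟 (gen J)) * ((Ideal.absNorm J.1 : ℕ) : ℂ) ^ (-s)) := by
  classical
  have hn : (0 : ℝ) < Module.finrank ℚ K := by exact_mod_cast Module.finrank_pos
  set d : ℝ := ((Module.finrank ℚ K : ℕ) : ℝ) with hn'
  intro p 𝔪 𝔭 ν κ τ ψ 𝔟 χ o C E T _ r u h σ s hs
  obtain ⟨h1, h2, h3⟩ := hU (mq κ) σ τ (fun J => ψ (qt 𝔟 (gen J))) 1 (fun J => h.hC.norm_le _) s hs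
  have hcu : cu κ τ ψ 𝔟 ≠ 0 := h.cu_ne
  have hcount : Countable (𝓞 K) := (coE K).countable_iff.mpr inferInstance
  have hth := h.th_eq σ s
  have hcont : Continuous fun P : PP K => cu κ τ ψ 𝔟 * (SP (Ξf κ τ ψ C) (sc (el K P) * LC C) (wσ σ) (lk κ) (mq κ) *
        phz τ (el K P) * cexp (Module.finrank ℚ K * s * P.1 / 2)) := by
    have h4 : Continuous (el K) := (el K).continuous_of_finiteDimensional
    have hLne : (LC C).det ≠ 0 := by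
      have := B_ne h.isL (fun _ => 0)
      rw [sc_zero, one_mul] at this
      exact this
    exact continuous_const.mul ((((SP_cont h.spl.bd hLne (wσ σ) (lk_adm κ) (mq κ)).comp h4).mul
      ((phz_cont τ).comp h4)).mul (by fun_prop))
  have hint : Integrable (fun P : PP K => cu κ τ ψ 𝔟 * (SP (Ξf κ τ ψ C) (sc (el K P) * LC C) (wσ σ) (lk κ) (mq κ) *
        phz τ (el K P) * cexp (Module.finrank ℚ K * s * P.1 / 2))) (volume.restrict (S0 K)) := by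
    have h5 := Pool.Agent.Y773.integrable_tsum h1 h2 (by
      simp_rw [hth]
      exact hcont.aestronglyMeasurable)
    simp_rw [hth] at h5
    exact h5
  simp_rw [hth] at h3
  -- Fubini
  have hrestr : (volume : Measure (PP K)).restrict (S0 K) =
      (volume : Measure ℝ).prod (volume.restrict (cube K)) := by
    rw [S0_eq, Measure.volume_eq_prod, ← Measure.prod_restrict, Measure.restrict_univ]
  rw [hrestr] at hint h3
  rw [integral_prod _ hint] at h3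
  have h9 := hint.integral_prod_left
  -- the substitution
  have h6 : ∀ v : ℝ, cu κ τ ψ 𝔟 * ((Real.exp v : ℂ) * (((Real.exp v : ℝ) : ℂ) ^ (s - 1) •
      hz κ ψ C σ τ (Real.exp v))) =
      (fun u : ℝ => ∫ θ in cube K, cu κ τ ψ 𝔟 * (SP (Ξf κ τ ψ C) (sc (el K (u, θ)) * LC C) (wσ σ) (lk κ) (mq κ) *
        phz τ (el K (u, θ)) * cexp (Module.finrank ℚ K * s * ((u, θ) : PP K).1 / 2))) (2 / d * v) := by
    intro v
    simp only
    rw [integral_const_mul, integral_mul_const]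
    unfold hz
    rw [Real.log_exp, smul_eq_mul]
    have hev : ((Real.exp v : ℝ) : ℂ) ≠ 0 := by exact_mod_cast (Real.exp_pos v).ne'
    have h7 : (Real.exp v : ℂ) * (((Real.exp v : ℝ) : ℂ) ^ (s - 1)) =
        cexp (Module.finrank ℚ K * s * ((2 / d * v : ℝ) : ℂ) / 2) := by
      rw [Complex.cpow_def_of_ne_zero hev, ← Complex.ofReal_log (Real.exp_pos v).le, Real.log_exp,
        Complex.ofReal_exp, ← Complex.exp_add]
      congr 1
      have hnc : (d : ℂ) ≠ 0 := by exact_mod_cast hn.ne'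
      have hnn : (Module.finrank ℚ K : ℂ) = (d : ℂ) := by rw [hn']; push_cast; rfl
      rw [hnn]
      push_cast
      field_simp
      ring
    rw [← mul_assoc (Real.exp v : ℂ), h7]
    ring
  have hconv : MellinConvergent (hz κ ψ C σ τ) s := by
    have h8 : MellinConvergent (fun t => cu κ τ ψ 𝔟 • hz κ ψ C σ τ t) s := by
      unfold MellinConvergent
      rw [← integrable_exp_sub]
      refine (h9.comp_mul_left' (R := 2 / d) (by positivity)).congr (Eventually.of_forall fun v => ?_)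
      refine (h6 v).symm.trans ?_
      simp only [smul_eq_mul]
      ring
    have h10 := h8.const_smul (cu κ τ ψ 𝔟)⁻¹
    simp only [smul_eq_mul, inv_mul_cancel_left₀ hcu] at h10
    exact h10
  refine ⟨hconv, ?_⟩
  unfold mellin
  rw [← integral_exp_sub, ← integral_const_mul]
  rw [integral_congr_ae (Eventually.of_forall h6)]
  have h8 := Measure.integral_comp_mul_left (fun u : ℝ => ∫ θ in cube K, cu κ τ ψ 𝔟 *
    (SP (Ξf κ τ ψ C) (sc (el K (u, θ)) * LC C) (wσ σ) (lk κ) (mq κ) * phz τ (el K (u, θ)) *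
        cexp (Module.finrank ℚ K * s * ((u, θ) : PP K).1 / 2))) (2 / d)
  refine h8.trans ?_
  rw [h3, abs_of_pos (by positivity), Complex.real_smul]
  push_cast
  have hnc : (d : ℂ) ≠ 0 := by exact_mod_cast hn.ne'
  field_simp

/-- the partial `L`-functions -/
theorem L_part {c0 : ℝ} (hc0 : 0 < c0) (hU : UnfC K c0) :
    ∀ (p : ℕ) (𝔪 𝔭 : Ideal (𝓞 K)) (ν : ℕ) (κ : InfinitePlace K → ℤ) (τ : InfinitePlace K → ℝ)
    (ψ : Ideal (𝓞 K) →*₀ ℂ) (𝔟 : Ideal (𝓞 K)) (χ : DirichletCharacter ℂ (p ^ ν)) (o : K →+* ℂ)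
    (C E : Matrix (K →+* ℂ) (K →+* ℂ) ℤ) (T : Type) [Fintype T] (r : T → (K →+* ℂ) → ℤ) (u : T → ℂ),
      Dat p 𝔪 𝔭 ν κ τ ψ 𝔟 χ o C E T r u → ∀ (σ : InfinitePlace K → ℝ),
      Differentiable ℂ (Lq (Module.finrank ℚ K / 2 * c0) κ C τ ψ 𝔟 σ) ∧ ∀ s : ℂ, 1 < s.re →
        Lq (Module.finrank ℚ K / 2 * c0) κ C τ ψ 𝔟 σ s = ∑' J : PIdl K, ψ (qt 𝔟 (gen J)) * ((Ideal.absNorm J.1 : ℕ) : ℂ) ^ (-s) := by
  obtain ⟨C0, hC0d⟩ : ∃ C0 : ℝ, C0 = Module.finrank ℚ K / 2 * c0 := ⟨_, rfl⟩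
  have hn : (0 : ℝ) < Module.finrank ℚ K := by exact_mod_cast Module.finrank_pos
  have hC0 : 0 < C0 := by rw [hC0d]; positivity
  intro p 𝔪 𝔭 ν κ τ ψ 𝔟 χ o C E T _ r u h σ
  rw [← hC0d]
  refine ⟨?_, fun s hs => ?_⟩
  · exact ((Gi_diff (mq κ) σ τ).mul ((h.mel_diff σ).const_mul _)).const_mul _
  · unfold Lq
    have h1 := (mellin_hz hU p 𝔪 𝔭 ν κ τ ψ 𝔟 χ o C E T r u h σ s hs).2
    rw [← hC0d] at h1
    have h2 := Gz_Gi (mq κ) σ τ (s := s) (by linarith)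
    have h3 : (C0 : ℂ) ≠ 0 := by exact_mod_cast hC0.ne'
    rw [h1]
    calc _ = ((C0 : ℂ)⁻¹ * C0) * (Gi (mq κ) σ τ s * Gz (mq κ) σ τ s) *
          ∑' J : PIdl K, ψ (qt 𝔟 (gen J)) * ((Ideal.absNorm J.1 : ℕ) : ℂ) ^ (-s) := by ring
      _ = _ := by rw [h2, inv_mul_cancel₀ h3]; ring

/-- the constant of the theta bound -/
noncomputable def Cth (κ : InfinitePlace K → ℤ) : ℝ :=
  Kf (mq κ) ^ 2 * Co5 (Fintype.card (K →+* ℂ)) (CGU K)

lemma Cth_pos (κ : InfinitePlace K → ℤ) : 0 < Cth κ := by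
  unfold Cth
  have h1 := Kf_pos (mq κ)
  have h2 := Co5_pos (Fintype.card (K →+* ℂ)) (CGU_nonneg (K := K))
  positivity

/-- the bound for the Mellin transform -/
theorem mel_bound (κ : InfinitePlace K → ℤ) :
    ∀ (p : ℕ) (𝔪 𝔭 : Ideal (𝓞 K)) (ν : ℕ) (τ : InfinitePlace K → ℝ)
    (ψ : Ideal (𝓞 K) →*₀ ℂ) (𝔟 : Ideal (𝓞 K)) (χ : DirichletCharacter ℂ (p ^ ν)) (o : K →+* ℂ)
    (C E : Matrix (K →+* ℂ) (K →+* ℂ) ℤ) (T : Type) [Fintype T] (r : T → (K →+* ℂ) → ℤ) (u : T → ℂ),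
      Dat p 𝔪 𝔭 ν κ τ ψ 𝔟 χ o C E T r u → 7 ≤ p → ∀ (σ : InfinitePlace K → ℝ) (S : ℝ),
      (∀ w, Real.sqrt (1 + σ w ^ 2) ≤ S) →
      ∀ s : ℂ, s.re = 1 / 2 → ‖mellin (hz κ ψ C σ τ) s‖ ≤ (Ideal.absNorm 𝔪 : ℝ) ^ 2 *
        (Real.sqrt (Cth κ * (p : ℝ) ^ (Fintype.card (K →+* ℂ) + 4) * (1 + ν) ^ 2 *
          S ^ Fintype.card (K →+* ℂ) * ((p : ℝ) ^ ν) ^ (19 / 58 : ℝ) / Vb 𝔟) *
          (4 + Real.log (S ^ Fintype.card (K →+* ℂ) * (p : ℝ) ^ ν))) := by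
  obtain ⟨Cθ, hCθd⟩ : ∃ Cθ, Cθ = Cth κ := ⟨_, rfl⟩
  have hCθ : 0 < Cθ := by rw [hCθd]; exact Cth_pos κ
  have h0 := NU.SP_K κ
  intro p 𝔪 𝔭 ν τ ψ 𝔟 χ o C E T _ r u h hp7 σ S hS s hs
  rw [← hCθd]
  obtain ⟨F, hF⟩ : ∃ F : ℝ, F = (Fintype.card T : ℝ) := ⟨_, rfl⟩
  have hF1 : 1 ≤ F := by rw [hF]; exact_mod_cast h.one_le
  have hF0 : 0 < F := by linarith
  have hFm : (Ideal.absNorm 𝔪 : ℝ) = F := by rw [hF, h.card]
  obtain ⟨M, hM⟩ : ∃ M, M = Cθ * (p : ℝ) ^ (Fintype.card (K →+* ℂ) + 4) * (1 + ν) ^ 2 *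
          S ^ Fintype.card (K →+* ℂ) * ((p : ℝ) ^ ν) ^ (19 / 58 : ℝ) := ⟨_, rfl⟩
  have hp0 : (0 : ℝ) < p := by exact_mod_cast h.hP.hp.pos
  have hp1 : (1 : ℝ) ≤ p := by exact_mod_cast h.hP.hp.one_le
  have hS0 : 0 ≤ S := (Real.sqrt_nonneg _).trans (hS (Classical.arbitrary _))
  have hM0 : 0 ≤ M := by rw [hM]; positivity
  have hL := h.isL
  have hV := Vb_pos hL.ne_bot
  have hR1 := Rσ_one_le σ
  have hRS := Rσ_le hS
  have hq1 : 1 ≤ (p : ℝ) ^ ν := one_le_pow₀ hp1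
  have hQ1 : 1 ≤ S ^ Fintype.card (K →+* ℂ) * (p : ℝ) ^ ν := by
    have := hR1.trans hRS
    nlinarith
  have hMF0 : 0 ≤ F ^ 4 * M := by positivity
  have key : ‖mellin (hz κ ψ C σ τ) s‖ ≤ Real.sqrt (F ^ 4 * M / Vb 𝔟) *
      (4 + Real.log (S ^ Fintype.card (K →+* ℂ) * (p : ℝ) ^ ν)) := by
    refine int_half hs (h.mel_conv σ s) hV hQ1 hMF0 fun t ht => ?_
    have htV : 0 < t * Vb 𝔟 := mul_pos ht hV
    have hmin0 : 0 ≤ min (t * Vb 𝔟)⁻¹ (min 1 (S ^ Fintype.card (K →+* ℂ) * (p : ℝ) ^ ν * (t * Vb 𝔟))) :=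
      le_min (by positivity) (le_min zero_le_one (by positivity))
    have h1 : ‖hz κ ψ C σ τ t‖ ≤ Real.sqrt (F ^ 4 * M * (t * Vb 𝔟)⁻¹ *
        min (t * Vb 𝔟)⁻¹ (min 1 (S ^ Fintype.card (K →+* ℂ) * (p : ℝ) ^ ν * (t * Vb 𝔟)))) := by
      refine hz_le σ fun θ => ?_
      apply Real.le_sqrt_of_sq_le
      have h2 := h0 p h.hP.hp hp7 ν h.hν χ h.prim o C E 𝔟 (𝔪 * 𝔟) 𝔭 hL h.chn
        (Pool.Agent.Y773.el K ((2 / Module.finrank ℚ K) * Real.log t, θ)) σ S hS (Ξf κ τ ψ C) T r u h.spl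
        h.one_le h.det
      have hCθ' : Kf (mq κ) ^ 2 * Co5 (Fintype.card (K →+* ℂ)) (CGU K) = Cθ := by rw [hCθd]; rfl
      rw [hCθ'] at h2
      have e5 : Cθ * (Fintype.card T : ℝ) ^ 4 * (p : ℝ) ^ (Fintype.card (K →+* ℂ) + 4) * (1 + ν) ^ 2 *
          S ^ Fintype.card (K →+* ℂ) * ((p : ℝ) ^ ν) ^ (19 / 58 : ℝ) = F ^ 4 * M := by
        rw [hM, hF]
        ring
      rw [Aq_det_inv σ o (by positivity), det_t hL ht, e5] at h2
      have h3 : min (t * Vb 𝔟)⁻¹ (min 1 (Rσ σ * (p : ℝ) ^ ν * (t * Vb 𝔟))) ≤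
          min (t * Vb 𝔟)⁻¹ (min 1 (S ^ Fintype.card (K →+* ℂ) * (p : ℝ) ^ ν * (t * Vb 𝔟))) := by
        refine min_le_min le_rfl (min_le_min le_rfl ?_)
        gcongr
      have h4 := h2.trans (mul_le_mul_of_nonneg_left h3 hMF0)
      rw [← le_div_iff₀ htV] at h4
      refine h4.trans (le_of_eq ?_)
      rw [div_eq_mul_inv]
      ring
    calc _ ≤ (Real.sqrt (F ^ 4 * M * (t * Vb 𝔟)⁻¹ *
        min (t * Vb 𝔟)⁻¹ (min 1 (S ^ Fintype.card (K →+* ℂ) * (p : ℝ) ^ ν * (t * Vb 𝔟))))) ^ 2 :=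
          pow_le_pow_left₀ (norm_nonneg _) h1 2
      _ = _ := Real.sq_sqrt (by positivity)
  rw [← hM, hFm]
  refine key.trans (le_of_eq ?_)
  have e1 : Real.sqrt (F ^ 4 * M / Vb 𝔟) = F ^ 2 * Real.sqrt (M / Vb 𝔟) := by
    have e2 : F ^ 4 * M / Vb 𝔟 = (F ^ 2) ^ 2 * (M / Vb 𝔟) := by ring
    rw [e2, Real.sqrt_mul (by positivity), Real.sqrt_sq (by positivity)]
  rw [e1]
  ring

end Run7.h343.NG.U
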