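import Pool.Agent.Run7.h343.NU.Z4
import Pool.Agent.Run7.h343.NF.Off

/-!
The mean square over `l` of the Fourier sums attached to `χ(n + ϖ^m l) conj χ(n)`: constants which
are polynomial in the constant of the lattice.
-/

set_option autoImplicit false

namespace Run7.h343.NU

open Complex Finset
open Pool.Agent.Y766.R7
open Pool.Agent.H442R2
open Pool.Agent.Y766
open Pool.Agent.Y766.R3 (eu KL S_KLO S_PHI FF FH)
open Run7.h343.NF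

variable {ι : Type} [Fintype ι] [DecidableEq ι] {o : ι}

/-- the scaling factor -/
noncomputable def Eu (n : ℕ) (CG : ℝ) : ℝ := 1 + CR n CG

lemma Eu_one_le (n : ℕ) {CG : ℝ} (h : 0 ≤ CG) : 1 ≤ Eu n CG := by
  unfold Eu
  linarith [CR_nonneg n h]

theorem reps_u {p : ℕ} {CG : ℝ} {N : ℕ} {A : Matrix ι ι ℝ} (hp : 0 < p) (h : WR p o CG N A) (_o : ι)
    {a b : ℕ} (hab : a + b ≤ N)
    (hd : (p : ℝ) ^ (a + b) * Eu (Fintype.card ι) CG ^ Fintype.card ι ≤ |A.det|⁻¹) : ∃ w : ℕ → (ι → ℤ),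
    ∀ k, ‖em A (w k)‖ ^ 2 ≤ 1 ∧ (p : ℤ) ^ (a + b) ∣ w k o - (p : ℤ) ^ a * k := by
  have hCG := h.lb.CG_nonneg
  have hE := Eu_one_le (Fintype.card ι) hCG
  have hE0 : 0 < Eu (Fintype.card ι) CG := by linarith
  have hdA : 0 < |A.det| := abs_pos.2 h.det
  have hn : 1 ≤ Fintype.card ι := Fintype.card_pos_iff.2 ⟨_o⟩
  obtain ⟨E, hEd⟩ : ∃ E, E = Eu (Fintype.card ι) CG := ⟨_, rfl⟩
  rw [← hEd] at hE hE0 hd
  have hd' : |(E • A).det| * (p : ℝ) ^ (a + b) ≤ 1 := by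
    rw [smul_det_abs A hE0]
    have h1 := mul_le_mul_of_nonneg_left hd hdA.le
    rw [mul_inv_cancel₀ hdA.ne'] at h1
    linarith
  obtain ⟨w, hw⟩ := reps hp (h.smul hE0) hn hab hd'
  refine ⟨w, fun k => ⟨?_, (hw k).2⟩⟩
  have h1 := (hw k).1
  rw [em_smul, norm_smul, mul_pow, Real.norm_of_nonneg hE0.le] at h1
  have h2 : CR (Fintype.card ι) CG ≤ E := by rw [hEd]; unfold Eu; linarith
  have h3 : E ≤ E ^ 2 := le_self_pow₀ hE (by norm_num)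
  have h4 : E ^ 2 * ‖em A (w k)‖ ^ 2 ≤ E ^ 2 * 1 := by linarith
  exact le_of_mul_le_mul_left h4 (by positivity)

/-- the constant of the mean square -/
noncomputable def Cmu (CG : ℝ) : ℝ := 4 * (16 * Real.exp (2 * Real.pi * 1) ^ 7 * (11 + CG ^ 2))

lemma Cmu_pos (CG : ℝ) : 0 < Cmu CG := by
  unfold Cmu
  positivity

theorem mean_u (o : ι) {CG : ℝ} (hCG : 0 ≤ CG) : ∀ p : ℕ, p.Prime → 7 ≤ p →
    ∀ (ν m s : ℕ) [NeZero (p ^ (ν - m))],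
      1 ≤ m → 1 ≤ s → ν = 3 * m + s → 19 * s ≤ m →
    ∀ χ : DirichletCharacter ℂ (p ^ ν), χ.IsPrimitive → ∀ A1 A2 : Matrix ι ι ℝ,
      WR p o CG (ν - m) A1 → WR p o CG (ν - m) A2 →
      (p : ℝ) ^ ((m + 11 * s + 2) / 3) * Eu (Fintype.card ι) CG ^ Fintype.card ι ≤ |A2.det|⁻¹ → (p : ℝ) ^ (m + s) ≤ |A1.det|⁻¹ * |A2.det|⁻¹ →
    ∀ ψ : (ι → ℤ) → (ι → ℤ) → ℂ, (∀ l, IsCh (ψ l)) → ∀ z : EuclideanSpace ℝ ι,
    ∑' l, wt p o A1 l *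
      ‖∑' h, FH (p ^ (ν - m)) (FF χ ((p : ℤ) ^ m * l o)) (h o) * ψ l h * (ga (em A2) z h : ℂ)‖ ^ 2 ≤
      Cmu CG * (p : ℝ) ^ 6 * (1 + ν) * GE (em A1) * GE (em A2) ^ 2 * ((p : ℝ) ^ m) ^ 2 := by
  obtain ⟨c, hc⟩ : ∃ c : ℝ, c = 16 * Real.exp (2 * Real.pi * 1) ^ 7 * (11 + CG ^ 2) := ⟨_, rfl⟩
  have hE1 : 1 ≤ Real.exp (2 * Real.pi * 1) :=
    Real.one_le_exp (mul_nonneg (by positivity) zero_le_one)
  have hE7 : 1 ≤ Real.exp (2 * Real.pi * 1) ^ 7 := one_le_pow₀ hE1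
  have hCmu : Cmu CG = 4 * c := by rw [hc]; rfl
  rw [hCmu]
  have hc1 : 1 ≤ c := by
    rw [hc]
    nlinarith [sq_nonneg CG]
  intro p hp hp7 ν m s _ hm hs hν h19 χ hχ A1 A2 W1 W2 hK hXK ψ hψ z
  have hp0 : (0 : ℝ) < p := by exact_mod_cast hp.pos
  have hp1 : (1 : ℝ) ≤ p := by exact_mod_cast hp.one_le
  have hp2 : p ≠ 2 := by omega
  have hsq := Pool.Agent.Y155.R7.sq_main
  have hbr := Pool.Agent.Y924.R7.Br.br hsq
  have hklo := Pool.Agent.Y779.R3.klo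
  have hPhi := Pool.Agent.Y870.R3.phi
  obtain ⟨κ, hκ⟩ : ∃ κ, κ = (m + 11 * s + 2) / 3 := ⟨_, rfl⟩
  rw [← hκ] at hK
  obtain ⟨Ψ, A, L, hΨ1, hΨ2, hAu, hLu, hFH⟩ :=
    get_dataU hPhi (u := s) hp hp2 hm (by omega) (by omega) (by omega) hχ
  have hGX := GE_pos (em_GW W1.det)
  have hGK := GE_pos (em_GW W2.det)
  obtain ⟨Z, hZd⟩ : ∃ Z : ℝ, Z = c * p * (1 + ν) * (GE (em A1) * GE (em A2) ^ 2 / (p : ℝ) ^ s) := ⟨_, rfl⟩
  have hZ0 : 0 ≤ Z := by rw [hZd]; positivity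
  -- the phases
  have hex : ∀ l : ι → ℤ, ∃ θ : (ι → ℤ) → ℂ, IsCh θ ∧ (¬ (p : ℤ) ∣ l o → ∀ h : ι → ℤ,
      FH (p ^ (ν - m)) (FF χ ((p : ℤ) ^ m * l o)) (h o) * ψ l h =
        KL Ψ A (L * ((l o * h o : ℤ) : ZMod (p ^ (ν - m)))) * θ h) := by
    intro l
    by_cases hl : (p : ℤ) ∣ l o
    · exact ⟨ψ l, hψ l, fun h => absurd hl h⟩
    · obtain ⟨d, hd⟩ := hFH (l o) hl
      refine ⟨fun h => KF.e (((-(h o * d) : ℤ) : ℝ) / (p ^ (ν - m) : ℕ)) * ψ l h, ⟨?_, ?_⟩, ?_⟩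
      · intro h
        rw [norm_mul, (hψ l).nrm, mul_one, ← Pool.Agent.Y766.R3.eu_eq, eu_norm]
      · intro h h'
        rw [(hψ l).add, Pi.add_apply, ← Pool.Agent.Y766.R3.eu_eq, ← Pool.Agent.Y766.R3.eu_eq,
          ← Pool.Agent.Y766.R3.eu_eq]
        have e : (((-((h o + h' o) * d) : ℤ) : ℝ) / (p ^ (ν - m) : ℕ)) =
            ((-(h o * d) : ℤ) : ℝ) / (p ^ (ν - m) : ℕ) +
            ((-(h' o * d) : ℤ) : ℝ) / (p ^ (ν - m) : ℕ) := by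
          push_cast; ring
        rw [e, eu_add]
        ring
      · intro _ h
        rw [hd]
        ring
  choose θ hθ1 hθ2 using hex
  have hkey := keyg hbr hklo hp hp2 (u := s) (by omega) (by omega) hΨ1 hΨ2 hAu hLu hθ1 (fun l => l o)
    (fun h => h o) (ga_summable W1.det 0) (fun l => ga_nonneg _ _ _) W2.det z (Z := Z)
    (fun l0 h0 hl0 hh0 Y C hC => by
      have h4 := Z4R hp7 (u := s) (κ := κ) (s := s) (by omega) (by omega) (by omega) (by omega) hs hp W1 W2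
        hl0 hh0 hΨ1 hΨ2 Y hC hθ1 zero_le_one (fun a b hab => reps_u hp.pos W2 o (hab.trans_le (by omega)) (by rw [hab]; exact hK)) (by
          refine le_trans ?_ hXK
          exact pow_le_pow_right₀ hp1 (by omega)) z
      refine le_of_pow_le_pow_left₀ (n := 4) (by norm_num) hZ0 (h4.trans ?_)
      have e1 : Z ^ 4 = (c * p) ^ 4 * (GE (em A1) ^ 4 * GE (em A2) ^ 8 / (p : ℝ) ^ (4 * s)) * (1 + ν) ^ 4 := by
        have : (p : ℝ) ^ (4 * s) = ((p : ℝ) ^ s) ^ 4 := by rw [← pow_mul]; congr 1; ring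
        rw [this, hZd]
        field_simp
      rw [e1]
      have e2 : 16 * Real.exp (2 * Real.pi * 1) ^ 7 * (3 + CG ^ 2 * (p : ℝ) ^ 2 + 8 * p) ≤ (c * p) ^ 4 := by
        have f1 : 3 + CG ^ 2 * (p : ℝ) ^ 2 + 8 * p ≤ (11 + CG ^ 2) * (p : ℝ) ^ 2 := by nlinarith
        calc 16 * Real.exp (2 * Real.pi * 1) ^ 7 * (3 + CG ^ 2 * (p : ℝ) ^ 2 + 8 * p) ≤
              16 * Real.exp (2 * Real.pi * 1) ^ 7 * ((11 + CG ^ 2) * (p : ℝ) ^ 2) := by gcongr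
          _ = c * (p : ℝ) ^ 2 := by rw [hc]; ring
          _ ≤ c ^ 4 * (p : ℝ) ^ 4 := by
              have g1 : c ≤ c ^ 4 := le_self_pow₀ hc1 (by norm_num)
              have g2 : (p : ℝ) ^ 2 ≤ (p : ℝ) ^ 4 := pow_le_pow_right₀ hp1 (by norm_num)
              gcongr
          _ = _ := by ring
      have e3 : (1 + ((ν - m : ℕ) : ℝ)) ^ 3 ≤ (1 + (ν : ℝ)) ^ 4 := by
        have g1 : ((ν - m : ℕ) : ℝ) ≤ ν := by exact_mod_cast Nat.sub_le ν m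
        calc (1 + ((ν - m : ℕ) : ℝ)) ^ 3 ≤ (1 + (ν : ℝ)) ^ 3 := by gcongr
          _ ≤ _ := pow_le_pow_right₀ (by linarith [Nat.cast_nonneg (α := ℝ) ν]) (by norm_num)
      gcongr)
  have e2 : ∀ l, wt p o A1 l *
      ‖∑' h, FH (p ^ (ν - m)) (FF χ ((p : ℤ) ^ m * l o)) (h o) * ψ l h * (ga (em A2) z h : ℂ)‖ ^ 2 =
      (if (p : ℤ) ∣ l o then 0 else ga (em A1) 0 l) *
      ‖∑' h, KL Ψ A (L * ((l o * h o : ℤ) : ZMod (p ^ (ν - m)))) * θ l h *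
        (ga (em A2) z h : ℂ)‖ ^ 2 := by
    intro l
    unfold wt
    by_cases hl : (p : ℤ) ∣ l o
    · rw [if_pos hl, zero_mul, zero_mul]
    · rw [if_neg hl]
      congr 3
      refine tsum_congr fun h => ?_
      rw [hθ2 l hl h]
  simp_rw [e2]
  refine hkey.trans ?_
  have hps : (p : ℝ) ^ (ν - m) = ((p : ℝ) ^ m) ^ 2 * (p : ℝ) ^ s := by
    rw [← pow_mul, ← pow_add]; congr 1; omega
  have hps0 : (0 : ℝ) < (p : ℝ) ^ s := by positivity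
  refine le_of_eq ?_
  rw [hZd, hps]
  field_simp

end Run7.h343.NU
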