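import Pool.Agent.Run7.h343.NF.Z4

/-!
The fourth power of the mean square (three differencings) with an arbitrary radius of the
representatives.
-/

set_option autoImplicit false
set_option linter.unusedSectionVars false

namespace Run7.h343.NU

open Complex Finset
open Pool.Agent.Y766.R7
open Run7.h343.NF

variable {ι : Type} [Fintype ι] [DecidableEq ι] {o : ι} {p r : ℕ} {CG : ℝ} {A1 A2 : Matrix ι ι ℝ}

/-- the bound with an arbitrary radius of the representatives -/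
theorem Z4R [NeZero (p ^ r)] (hp7 : 7 ≤ p) {u κ s : ℕ}
    (hκ : 4 * s + 1 ≤ κ) (hu : u ≤ κ - 4 * s) (hra : r ≤ 7 * (κ - 4 * s)) (hB : 3 * κ ≤ r + 3 * s)
    (hs : 1 ≤ s) (hp : p.Prime) (W1 : WR p o CG r A1) (W2 : WR p o CG r A2)
    {l0 h0 : ℤ} (hl0 : ¬ (p : ℤ) ∣ l0) (hh0 : ¬ (p : ℤ) ∣ h0)
    {Ψ : ZMod (p ^ r) → ℂ} (hΨ : ∀ y, ‖Ψ y‖ = 1)
    (hΨ2 : ∀ y z : ZMod (p ^ r), Ψ (y + (p : ZMod (p ^ r)) ^ u * z) = Ψ y)
    (Y : ZMod (p ^ r)) {C : ZMod (p ^ r)} (hC : IsUnit C) {χ : (ι → ℤ) → (ι → ℤ) → ℂ}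
    (hχ : ∀ l, IsCh (χ l)) {R : ℝ} (hR : 0 ≤ R)
    (hreps : ∀ a b : ℕ, a + b = κ → ∃ w : ℕ → (ι → ℤ),
      ∀ k, ‖em A2 (w k)‖ ^ 2 ≤ R ∧ (p : ℤ) ^ (a + b) ∣ w k o - (p : ℤ) ^ a * k)
    (hA : (p : ℝ) ^ (r + 7 * s - 3 * κ + 4 * s) ≤ |A1.det|⁻¹ * |A2.det|⁻¹) (z : EuclideanSpace ℝ ι) :
    Af (ga (em A1) 0) (em A2) z (Fm p r l0 h0 Ψ Y C (fun l : ι → ℤ => l o) (fun h : ι → ℤ => h o) χ) ^ 4 ≤
      16 * Real.exp (2 * Real.pi * R) ^ 7 * (3 + CG ^ 2 * (p : ℝ) ^ 2 + 8 * p) *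
        (GE (em A1) ^ 4 * GE (em A2) ^ 8 / (p : ℝ) ^ (4 * s)) * (1 + r) ^ 3 := by
  classical
  haveI := Fact.mk hp
  have hp2 : p ≠ 2 := by omega
  have hp0 : (0 : ℝ) < p := by exact_mod_cast hp.pos
  have hp1 : (1 : ℝ) ≤ p := by exact_mod_cast hp.one_le
  have hr1 : 1 ≤ r := by omega
  have hκr : κ ≤ r := by omega
  have a1 : κ - 4 * s ≤ κ - s := by omega
  have a2 : κ - 4 * s ≤ κ - 2 * s := by omega
  have a4 : 1 ≤ κ - 4 * s := by omega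
  have a5 : ∀ τ, 3 * κ - 7 * s ≤ τ → r - τ ≤ r + 7 * s - 3 * κ := fun τ h => by omega
  have a6 : ∀ τ, ¬ (τ + 2 ≤ r) → r - 1 ≤ τ := fun τ h => by omega
  have a9 : 4 * s ≤ r + 7 * s - 3 * κ := by omega
  have a10 : r + 7 * s - 3 * κ - 1 ≤ r := by omega
  have b1 : s ≤ κ := by omega
  have b2 : 2 * s ≤ κ := by omega
  have b4 : 4 * s ≤ κ := by omega
  have hsq := Pool.Agent.Y155.R7.sq_main
  have hcnt := Pool.Agent.Y287.R7.cnt
  have hCG := W1.lb.CG_nonneg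
  have b1' : κ - s + s = κ := Nat.sub_add_cancel b1
  have b2' : κ - 2 * s + 2 * s = κ := Nat.sub_add_cancel b2
  have b4' : κ - 4 * s + 4 * s = κ := Nat.sub_add_cancel b4
  obtain ⟨w1, hw1⟩ := hreps (κ - s) s b1'
  obtain ⟨w2, hw2⟩ := hreps (κ - 2 * s) (2 * s) b2'
  obtain ⟨w3, hw3⟩ := hreps (κ - 4 * s) (4 * s) b4'
  have i1 := reps_inj hp hw1
  have i2 := reps_inj hp hw2
  have i3 := reps_inj hp hw3
  obtain ⟨F, hF⟩ : ∃ F, F = Fm p r l0 h0 Ψ Y C (fun l : ι → ℤ => l o) (fun h : ι → ℤ => h o) χ := ⟨_, rfl⟩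
  have hFn : ∀ l h, ‖F l h‖ ≤ 1 := by
    rw [hF]
    exact fun l h => Fm_norm hΨ Y C (fun l : ι → ℤ => l o) (fun h : ι → ℤ => h o) hχ l h
  have hω := ga_summable W1.det 0
  have hω0 : ∀ l, 0 ≤ ga (em A1) 0 l := fun l => ga_nonneg _ _ _
  have hM : ∑' l, ga (em A1) 0 l = GE (em A1) := rfl
  have hpow : ∀ i, 0 < p ^ i := fun i => pow_pos hp.pos i
  have hV := vdc3 hω hω0 (em_GW W2.det) hFn z ((range (p ^ s)).image w1) ((range (p ^ (2 * s))).image w2)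
    ((range (p ^ (4 * s))).image w3)
    ((nonempty_range_iff.2 (hpow _).ne').image _) ((nonempty_range_iff.2 (hpow _).ne').image _)
    ((nonempty_range_iff.2 (hpow _).ne').image _) hR
    (by
      intro v hv
      rw [mem_image] at hv
      obtain ⟨k, -, rfl⟩ := hv
      exact (hw1 k).1)
    (by
      intro v hv
      rw [mem_image] at hv
      obtain ⟨k, -, rfl⟩ := hv
      exact (hw2 k).1)
    (by
      intro v hv
      rw [mem_image] at hv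
      obtain ⟨k, -, rfl⟩ := hv
      exact (hw3 k).1)
  rw [card_image_of_injOn i1, card_image_of_injOn i2, card_image_of_injOn i3, card_range, card_range,
    card_range, hM] at hV
  rw [← hF]
  refine hV.trans ?_
  clear hV
  obtain ⟨e, he⟩ : ∃ e, e = r + 7 * s - 3 * κ - 1 := ⟨_, rfl⟩
  obtain ⟨ρ, hρ⟩ : ∃ ρ, ρ = r + 7 * s - 3 * κ := ⟨_, rfl⟩
  obtain ⟨B1, hB1⟩ : ∃ B1, B1 = (p : ℝ) ^ 2 * (CG ^ 2 * (p : ℝ) ^ ρ) := ⟨_, rfl⟩
  have hB10 : 0 ≤ B1 := by rw [hB1]; positivity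
  have hGX := GE_pos (em_GW W1.det)
  have hGK := GE_pos (em_GW W2.det)
  -- pointwise bound
  have hpt : ∀ y1 ∈ (range (p ^ s)).offDiag, ∀ y2 ∈ (range (p ^ (2 * s))).offDiag,
      ∀ y3 ∈ (range (p ^ (4 * s))).offDiag,
      Bf (ga (em A1) 0) (em A2) (z - em A2 (w1 y1.1) - em A2 (w2 y2.1) - em A2 (w3 y3.1)) (Dx (w3 y3.1, w3 y3.2) (Dx (w2 y2.1, w2 y2.2)
        (Dx (w1 y1.1, w1 y1.2) F))) ≤
      B1 + if (p : ℤ) ^ e ∣ ((y1.1 : ℤ) - y1.2) * ((y2.1 : ℤ) - y2.2) * ((y3.1 : ℤ) - y3.2) then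
        GE (em A1) * GE (em A2) else 0 := by
    intro y1 hy1 y2 hy2 y3 hy3
    rw [mem_offDiag, mem_range, mem_range] at hy1 hy2 hy3
    have q1 := diff_bd hy1.1 hy1.2.1 hy1.2.2
    have q2 := diff_bd hy2.1 hy2.2.1 hy2.2.2
    have q3 := diff_bd hy3.1 hy3.2.1 hy3.2.2
    obtain ⟨δ1, hδ1⟩ : ∃ δ : ℤ, δ = (y1.1 : ℤ) - y1.2 := ⟨_, rfl⟩
    obtain ⟨δ2, hδ2⟩ : ∃ δ : ℤ, δ = (y2.1 : ℤ) - y2.2 := ⟨_, rfl⟩
    obtain ⟨δ3, hδ3⟩ : ∃ δ : ℤ, δ = (y3.1 : ℤ) - y3.2 := ⟨_, rfl⟩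
    rw [← hδ1] at q1
    rw [← hδ2] at q2
    rw [← hδ3] at q3
    rw [← hδ1, ← hδ2, ← hδ3]
    have c1 : (p : ℤ) ^ (κ - s + s) ∣ (w1 y1.1 - w1 y1.2) o - (p : ℤ) ^ (κ - s) * δ1 := by
      have := dvd_sub (hw1 y1.1).2 (hw1 y1.2).2
      refine this.trans (dvd_of_eq ?_)
      rw [Pi.sub_apply, hδ1]; ring
    have c2 : (p : ℤ) ^ (κ - 2 * s + 2 * s) ∣ (w2 y2.1 - w2 y2.2) o - (p : ℤ) ^ (κ - 2 * s) * δ2 := by
      have := dvd_sub (hw2 y2.1).2 (hw2 y2.2).2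
      refine this.trans (dvd_of_eq ?_)
      rw [Pi.sub_apply, hδ2]; ring
    have c3 : (p : ℤ) ^ (κ - 4 * s + 4 * s) ∣ (w3 y3.1 - w3 y3.2) o - (p : ℤ) ^ (κ - 4 * s) * δ3 := by
      have := dvd_sub (hw3 y3.1).2 (hw3 y3.2).2
      refine this.trans (dvd_of_eq ?_)
      rw [Pi.sub_apply, hδ3]; ring
    obtain ⟨t1', e1, f1⟩ := dvd_pert hp c1 q1.1 q1.2
    obtain ⟨t2', e2, f2⟩ := dvd_pert hp c2 q2.1 q2.2
    obtain ⟨t3', e3, f3⟩ := dvd_pert hp c3 q3.1 q3.2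
    obtain ⟨t1, ht1⟩ : ∃ t, t = (w1 y1.1 - w1 y1.2) o := ⟨_, rfl⟩
    obtain ⟨t2, ht2⟩ : ∃ t, t = (w2 y2.1 - w2 y2.2) o := ⟨_, rfl⟩
    obtain ⟨t3, ht3⟩ : ∃ t, t = (w3 y3.1 - w3 y3.2) o := ⟨_, rfl⟩
    rw [← ht1] at e1
    rw [← ht2] at e2
    rw [← ht3] at e3
    have nz : ∀ {t' δ : ℤ}, δ ≠ 0 → (∀ j, (p : ℤ) ^ j ∣ t' ↔ (p : ℤ) ^ j ∣ δ) → t' ≠ 0 := by
      intro t' δ hδ h h0
      rw [h0] at h
      have h2 := (h (padicValInt p δ + 1)).1 (dvd_zero _)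
      rw [padicValInt_dvd_iff] at h2
      rcases h2 with h2 | h2
      · exact hδ h2
      · exact absurd h2 (Nat.not_succ_le_self _)
    have n1 := nz q1.1 f1
    have n2 := nz q2.1 f2
    have n3 := nz q3.1 f3
    have v1 := val_eq n1 q1.1 f1
    have v2 := val_eq n2 q2.1 f2
    have v3 := val_eq n3 q3.1 f3
    have d1 : (p : ℤ) ^ (κ - 4 * s) ∣ t1 := by
      rw [e1]
      exact Dvd.dvd.mul_right (pow_dvd_pow _ a1) _
    have d2 : (p : ℤ) ^ (κ - 4 * s) ∣ t2 := by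
      rw [e2]
      exact Dvd.dvd.mul_right (pow_dvd_pow _ a2) _
    have d3 : (p : ℤ) ^ (κ - 4 * s) ∣ t3 := by
      rw [e3]
      exact Dvd.dvd.mul_right (pow_dvd_pow _ le_rfl) _
    have hT : t1 * t2 * t3 = (p : ℤ) ^ (3 * κ - 7 * s) * (t1' * t2' * t3') := by
      rw [e1, e2, e3]
      rw [ar3 hκ, pow_add, pow_add]
      ring
    have hpz : (p : ℤ) ≠ 0 := by exact_mod_cast hp.ne_zero
    have hT0' : t1' * t2' * t3' ≠ 0 := mul_ne_zero (mul_ne_zero n1 n2) n3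
    have hT0 : t1 * t2 * t3 ≠ 0 := by
      rw [hT]
      exact mul_ne_zero (pow_ne_zero _ hpz) hT0'
    have hv : padicValInt p (t1' * t2' * t3') = padicValInt p (δ1 * δ2 * δ3) := by
      rw [padicValInt.mul (mul_ne_zero n1 n2) n3, padicValInt.mul n1 n2,
        padicValInt.mul (mul_ne_zero q1.1 q2.1) q3.1, padicValInt.mul q1.1 q2.1, v1, v2, v3]
    obtain ⟨τ, hτ⟩ : ∃ τ, τ = padicValInt p (t1 * t2 * t3) := ⟨_, rfl⟩
    have hτd : ∀ n, (p : ℤ) ^ n ∣ t1 * t2 * t3 ↔ n ≤ τ := by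
      intro n
      rw [padicValInt_dvd_iff, hτ]
      constructor
      · rintro (h | h)
        · exact absurd h hT0
        · exact h
      · intro h; exact Or.inr h
    by_cases hτr : τ + 2 ≤ r
    · have hτ1 : 3 * κ - 7 * s ≤ τ := (hτd _).1 (by rw [hT]; exact Dvd.intro _ rfl)
      have key := one_vg hp7 (a := κ - 4 * s) (τ := τ) a4 hra hp W1 W2 hl0 hh0 hC
        d1 d2 d3 ((hτd _).2 le_rfl) (fun h => absurd ((hτd _).1 h) (Nat.not_succ_le_self _)) hτr 0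
        (z - em A2 (w1 y1.1) - em A2 (w2 y2.1) - em A2 (w3 y3.1))
      have e5 : Bf (ga (em A1) 0) (em A2) (z - em A2 (w1 y1.1) - em A2 (w2 y2.1) - em A2 (w3 y3.1)) (Dx (w3 y3.1, w3 y3.2)
          (Dx (w2 y2.1, w2 y2.2) (Dx (w1 y1.1, w1 y1.2) F))) =
          ‖∑' l, (if (p : ℤ) ∣ l o - l0 then (ga (em A1) 0 l : ℂ) else 0) *
          ∑' h, (if (p : ℤ) ∣ h o - h0 then (ga (em A2) (z - em A2 (w1 y1.1) - em A2 (w2 y2.1) - em A2 (w3 y3.1)) h : ℂ) else 0) *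
          (ZMod.stdAddChar (C * (aa p r l0 (l o) * dif3 p r h0 (h o) t1 t2 t3)) : ℂ)‖ := by
        unfold Bf
        congr 1
        refine tsum_congr fun l => ?_
        have htr : ∀ h, Dx (w3 y3.1, w3 y3.2) (Dx (w2 y2.1, w2 y2.2) (Dx (w1 y1.1, w1 y1.2) F)) l h =
            if (p : ℤ) ∣ l o - l0 ∧ (p : ℤ) ∣ h o - h0 then
            (ZMod.stdAddChar (C * (aa p r l0 (l o) * dif3 p r h0 (h o) t1 t2 t3)) : ℂ) else 0 := by
          intro h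
          unfold Dx
          rw [hF, triple3 hsq hp hp2 hr1 (a := κ - 4 * s) a4 hu hh0 hΨ hΨ2 Y C (fun l : ι → ℤ => l o) (R2 := fun h : ι → ℤ => h o) (fun _ _ => rfl) hχ
            (w1 y1.1 - w1 y1.2) (w2 y2.1 - w2 y2.2) (w3 y3.1 - w3 y3.2) l h (by rw [← ht1]; exact d1)
            (by rw [← ht2]; exact d2) (by rw [← ht3]; exact d3), ht1, ht2, ht3]
        simp_rw [htr]
        by_cases hl : (p : ℤ) ∣ l o - l0
        · rw [if_pos hl]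
          congr 1
          refine tsum_congr fun h => ?_
          by_cases hh : (p : ℤ) ∣ h o - h0
          · rw [if_pos ⟨hl, hh⟩, if_pos hh, mul_comm]
          · rw [if_neg (fun hh' => hh hh'.2), if_neg hh, zero_mul, zero_mul]
        · rw [if_neg hl, zero_mul]
          have : ∀ h, (if (p : ℤ) ∣ l o - l0 ∧ (p : ℤ) ∣ h o - h0 then
            (ZMod.stdAddChar (C * (aa p r l0 (l o) * dif3 p r h0 (h o) t1 t2 t3)) : ℂ) else 0) *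
              (ga (em A2) (z - em A2 (w1 y1.1) - em A2 (w2 y2.1) - em A2 (w3 y3.1)) h : ℂ) = 0 := by
            intro h
            rw [if_neg (fun hh' => hl hh'.1), zero_mul]
          simp_rw [this, tsum_zero, mul_zero]
      rw [e5]
      refine key.trans ?_
      have h2 : (p : ℝ) ^ (r - τ) ≤ (p : ℝ) ^ ρ := pow_le_pow_right₀ hp1 (by rw [hρ]; exact a5 τ hτ1)
      have h3 : (0 : ℝ) ≤ if (p : ℤ) ^ e ∣ δ1 * δ2 * δ3 then GE (em A1) * GE (em A2) else 0 := by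
        split_ifs <;> positivity
      calc _ ≤ (p : ℝ) ^ 2 * (CG ^ 2 * (p : ℝ) ^ ρ) := by gcongr
        _ ≤ _ := by rw [hB1]; linarith
    · have hdiv : (p : ℤ) ^ e ∣ δ1 * δ2 * δ3 := by
        rw [padicValInt_dvd_iff]
        right
        rw [← hv]
        have h1 : (p : ℤ) ^ (r - 1) ∣ t1 * t2 * t3 := (hτd _).2 (a6 τ hτr)
        rw [hT] at h1
        have h2 : r - 1 = (3 * κ - 7 * s) + e := by rw [he]; exact ar7 hκ hB hs
        rw [h2, pow_add] at h1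
        have h3 := Int.dvd_of_mul_dvd_mul_left (pow_ne_zero _ hpz) h1
        rw [padicValInt_dvd_iff] at h3
        exact h3.resolve_left hT0'
      rw [if_pos hdiv]
      have h3 := B_triv hω hω0 (em_GW W2.det) (Dx_norm (w3 y3.1, w3 y3.2) (Dx_norm (w2 y2.1, w2 y2.2)
        (Dx_norm (w1 y1.1, w1 y1.2) hFn))) (z - em A2 (w1 y1.1) - em A2 (w2 y2.1) - em A2 (w3 y3.1))
      rw [hM] at h3
      linarith
  -- summing
  obtain ⟨n1, hn1⟩ : ∃ n, n = p ^ s := ⟨_, rfl⟩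
  obtain ⟨n2, hn2⟩ : ∃ n, n = p ^ (2 * s) := ⟨_, rfl⟩
  obtain ⟨n3, hn3⟩ : ∃ n, n = p ^ (4 * s) := ⟨_, rfl⟩
  have hsumv : ∑ x1 ∈ ((range (p ^ s)).image w1).offDiag, ∑ x2 ∈ ((range (p ^ (2 * s))).image w2).offDiag,
      ∑ x3 ∈ ((range (p ^ (4 * s))).image w3).offDiag,
      Bf (ga (em A1) 0) (em A2) (z - em A2 x1.1 - em A2 x2.1 - em A2 x3.1) (Dx x3 (Dx x2 (Dx x1 F))) ≤
      ((p : ℝ) ^ (7 * s)) ^ 2 * (B1 + GE (em A1) * GE (em A2) * (8 * (e + 1) ^ 3 / (p : ℝ) ^ e)) := by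
    rw [sum_offDiag_image i1]
    have s2 : ∀ x1 : (ι → ℤ) × (ι → ℤ), ∑ x2 ∈ ((range (p ^ (2 * s))).image w2).offDiag,
      ∑ x3 ∈ ((range (p ^ (4 * s))).image w3).offDiag,
      Bf (ga (em A1) 0) (em A2) (z - em A2 x1.1 - em A2 x2.1 - em A2 x3.1) (Dx x3 (Dx x2 (Dx x1 F))) =
        ∑ y2 ∈ (range (p ^ (2 * s))).offDiag, ∑ y3 ∈ (range (p ^ (4 * s))).offDiag,
        Bf (ga (em A1) 0) (em A2) (z - em A2 x1.1 - em A2 (w2 y2.1) - em A2 (w3 y3.1)) (Dx (w3 y3.1, w3 y3.2) (Dx (w2 y2.1, w2 y2.2)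
        (Dx x1 F))) := by
      intro x1
      rw [sum_offDiag_image i2]
      refine sum_congr rfl fun y2 _ => ?_
      rw [sum_offDiag_image i3]
    refine (le_of_eq (sum_congr rfl fun y1 _ => s2 (w1 y1.1, w1 y1.2))).trans ?_
    calc _ ≤ ∑ y1 ∈ (range (p ^ s)).offDiag, ∑ y2 ∈ (range (p ^ (2 * s))).offDiag,
          ∑ y3 ∈ (range (p ^ (4 * s))).offDiag, (B1 +
          if (p : ℤ) ^ e ∣ ((y1.1 : ℤ) - y1.2) * ((y2.1 : ℤ) - y2.2) * ((y3.1 : ℤ) - y3.2) then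
        GE (em A1) * GE (em A2) else 0) := sum_le_sum fun y1 h1 => sum_le_sum fun y2 h2 => sum_le_sum fun y3 h3 =>
          hpt y1 h1 y2 h2 y3 h3
      _ = ((range (p ^ s)).offDiag.card : ℝ) * (((range (p ^ (2 * s))).offDiag.card : ℝ) *
          (((range (p ^ (4 * s))).offDiag.card : ℝ) * B1)) +
          ∑ y1 ∈ (range (p ^ s)).offDiag, ∑ y2 ∈ (range (p ^ (2 * s))).offDiag,
          ∑ y3 ∈ (range (p ^ (4 * s))).offDiag,
          (if (p : ℤ) ^ e ∣ ((y1.1 : ℤ) - y1.2) * ((y2.1 : ℤ) - y2.2) * ((y3.1 : ℤ) - y3.2) then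
        GE (em A1) * GE (em A2) else 0) := by
          simp_rw [sum_add_distrib, sum_const, nsmul_eq_mul]
      _ ≤ ((p : ℝ) ^ s) ^ 2 * (((p : ℝ) ^ (2 * s)) ^ 2 * (((p : ℝ) ^ (4 * s)) ^ 2 * B1)) +
          (p : ℝ) ^ s * ((p : ℝ) ^ (2 * s) * ((p : ℝ) ^ (4 * s) *
          (GE (em A1) * GE (em A2) * (8 * (e + 1) ^ 3 * ((p : ℝ) ^ s * (p : ℝ) ^ (2 * s) * (p : ℝ) ^ (4 * s)) /
            (p : ℝ) ^ e)))) := by
          refine add_le_add ?_ ?_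
          · have oc : ∀ n : ℕ, ((range (p ^ n)).offDiag.card : ℝ) ≤ ((p : ℝ) ^ n) ^ 2 := by
              intro n
              have := offDiag_card_le (range (p ^ n))
              rw [card_range] at this
              exact_mod_cast this
            have o1 := oc s
            have o2 := oc (2 * s)
            have o3 := oc (4 * s)
            gcongr
          · have k3 : ∀ d1 d2 : ℤ, ∑ y3 ∈ (range (p ^ (4 * s))).offDiag,
                (if (p : ℤ) ^ e ∣ d1 * d2 * ((y3.1 : ℤ) - y3.2) then GE (em A1) * GE (em A2) else 0) ≤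
                ((p ^ (4 * s) : ℕ) : ℝ) * ∑ d3 ∈ (Ioo (-((p ^ (4 * s) : ℕ) : ℤ)) (p ^ (4 * s) : ℕ)).filter (· ≠ 0),
                (if (p : ℤ) ^ e ∣ d1 * d2 * d3 then GE (em A1) * GE (em A2) else 0) := by
              intro d1 d2
              exact pair_sum _ (fun d => if (p : ℤ) ^ e ∣ d1 * d2 * d then GE (em A1) * GE (em A2) else 0)
                (fun d => by split_ifs <;> positivity)
            have k2 : ∀ d1 : ℤ, ∑ y2 ∈ (range (p ^ (2 * s))).offDiag, ∑ y3 ∈ (range (p ^ (4 * s))).offDiag,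
                (if (p : ℤ) ^ e ∣ d1 * ((y2.1 : ℤ) - y2.2) * ((y3.1 : ℤ) - y3.2) then GE (em A1) * GE (em A2) else 0) ≤
                ((p ^ (2 * s) : ℕ) : ℝ) * ∑ d2 ∈ (Ioo (-((p ^ (2 * s) : ℕ) : ℤ)) (p ^ (2 * s) : ℕ)).filter (· ≠ 0),
                ((p ^ (4 * s) : ℕ) : ℝ) * ∑ d3 ∈ (Ioo (-((p ^ (4 * s) : ℕ) : ℤ)) (p ^ (4 * s) : ℕ)).filter (· ≠ 0),
                (if (p : ℤ) ^ e ∣ d1 * d2 * d3 then GE (em A1) * GE (em A2) else 0) := by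
              intro d1
              refine (sum_le_sum fun y2 _ => k3 d1 ((y2.1 : ℤ) - y2.2)).trans ?_
              exact pair_sum _ (fun d => ((p ^ (4 * s) : ℕ) : ℝ) *
                ∑ d3 ∈ (Ioo (-((p ^ (4 * s) : ℕ) : ℤ)) (p ^ (4 * s) : ℕ)).filter (· ≠ 0),
                (if (p : ℤ) ^ e ∣ d1 * d * d3 then GE (em A1) * GE (em A2) else 0))
                (fun d => mul_nonneg (Nat.cast_nonneg _) (sum_nonneg fun _ _ => by split_ifs <;> positivity))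
            have k1 : ∑ y1 ∈ (range (p ^ s)).offDiag, ∑ y2 ∈ (range (p ^ (2 * s))).offDiag,
                ∑ y3 ∈ (range (p ^ (4 * s))).offDiag,
                (if (p : ℤ) ^ e ∣ ((y1.1 : ℤ) - y1.2) * ((y2.1 : ℤ) - y2.2) * ((y3.1 : ℤ) - y3.2) then
                  GE (em A1) * GE (em A2) else 0) ≤
                ((p ^ s : ℕ) : ℝ) * ∑ d1 ∈ (Ioo (-((p ^ s : ℕ) : ℤ)) (p ^ s : ℕ)).filter (· ≠ 0),
                ((p ^ (2 * s) : ℕ) : ℝ) * ∑ d2 ∈ (Ioo (-((p ^ (2 * s) : ℕ) : ℤ)) (p ^ (2 * s) : ℕ)).filter (· ≠ 0),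
                ((p ^ (4 * s) : ℕ) : ℝ) * ∑ d3 ∈ (Ioo (-((p ^ (4 * s) : ℕ) : ℤ)) (p ^ (4 * s) : ℕ)).filter (· ≠ 0),
                (if (p : ℤ) ^ e ∣ d1 * d2 * d3 then GE (em A1) * GE (em A2) else 0) := by
              refine (sum_le_sum fun y1 _ => k2 ((y1.1 : ℤ) - y1.2)).trans ?_
              exact pair_sum _ (fun d => ((p ^ (2 * s) : ℕ) : ℝ) *
                ∑ d2 ∈ (Ioo (-((p ^ (2 * s) : ℕ) : ℤ)) (p ^ (2 * s) : ℕ)).filter (· ≠ 0),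
                ((p ^ (4 * s) : ℕ) : ℝ) * ∑ d3 ∈ (Ioo (-((p ^ (4 * s) : ℕ) : ℤ)) (p ^ (4 * s) : ℕ)).filter (· ≠ 0),
                (if (p : ℤ) ^ e ∣ d * d2 * d3 then GE (em A1) * GE (em A2) else 0))
                (fun d => mul_nonneg (Nat.cast_nonneg _) (sum_nonneg fun _ _ =>
                  mul_nonneg (Nat.cast_nonneg _) (sum_nonneg fun _ _ => by split_ifs <;> positivity)))
            refine k1.trans ?_
            have h5 := hcnt p e hp (p ^ s) (p ^ (2 * s)) (p ^ (4 * s))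
            have e6 : ((p ^ s : ℕ) : ℝ) * ∑ d1 ∈ (Ioo (-((p ^ s : ℕ) : ℤ)) (p ^ s : ℕ)).filter (· ≠ 0),
                ((p ^ (2 * s) : ℕ) : ℝ) * ∑ d2 ∈ (Ioo (-((p ^ (2 * s) : ℕ) : ℤ)) (p ^ (2 * s) : ℕ)).filter (· ≠ 0),
                ((p ^ (4 * s) : ℕ) : ℝ) * ∑ d3 ∈ (Ioo (-((p ^ (4 * s) : ℕ) : ℤ)) (p ^ (4 * s) : ℕ)).filter (· ≠ 0),
                (if (p : ℤ) ^ e ∣ d1 * d2 * d3 then GE (em A1) * GE (em A2) else 0) =
                (p : ℝ) ^ s * ((p : ℝ) ^ (2 * s) * ((p : ℝ) ^ (4 * s) * (GE (em A1) * GE (em A2) *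
                ((((((Ioo (-((p ^ s : ℕ) : ℤ)) (p ^ s : ℕ)).filter (· ≠ 0)) ×ˢ
                  ((Ioo (-((p ^ (2 * s) : ℕ) : ℤ)) (p ^ (2 * s) : ℕ)).filter (· ≠ 0)) ×ˢ
                  ((Ioo (-((p ^ (4 * s) : ℕ) : ℤ)) (p ^ (4 * s) : ℕ)).filter (· ≠ 0))).filter
                  (fun v : ℤ × ℤ × ℤ => (p : ℤ) ^ e ∣ v.1 * v.2.1 * v.2.2)).card : ℝ))))) := by
              have e7 : GE (em A1) * GE (em A2) * ((((((Ioo (-((p ^ s : ℕ) : ℤ)) (p ^ s : ℕ)).filter (· ≠ 0)) ×ˢ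
                  ((Ioo (-((p ^ (2 * s) : ℕ) : ℤ)) (p ^ (2 * s) : ℕ)).filter (· ≠ 0)) ×ˢ
                  ((Ioo (-((p ^ (4 * s) : ℕ) : ℤ)) (p ^ (4 * s) : ℕ)).filter (· ≠ 0))).filter
                  (fun v : ℤ × ℤ × ℤ => (p : ℤ) ^ e ∣ v.1 * v.2.1 * v.2.2)).card : ℝ)) =
                  ∑ d1 ∈ (Ioo (-((p ^ s : ℕ) : ℤ)) (p ^ s : ℕ)).filter (· ≠ 0),
                  ∑ d2 ∈ (Ioo (-((p ^ (2 * s) : ℕ) : ℤ)) (p ^ (2 * s) : ℕ)).filter (· ≠ 0),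
                  ∑ d3 ∈ (Ioo (-((p ^ (4 * s) : ℕ) : ℤ)) (p ^ (4 * s) : ℕ)).filter (· ≠ 0),
                  (if (p : ℤ) ^ e ∣ d1 * d2 * d3 then GE (em A1) * GE (em A2) else 0) := by
                rw [mul_comm, ← nsmul_eq_mul, ← sum_const, sum_filter, sum_product]
                refine sum_congr rfl fun d1 _ => ?_
                rw [sum_product]
              rw [e7]
              simp_rw [← mul_sum]
              push_cast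
              ring
            rw [e6]
            gcongr
            refine h5.trans (le_of_eq ?_)
            push_cast
            ring
      _ = _ := by
          have e8 : (p : ℝ) ^ (7 * s) = (p : ℝ) ^ s * (p : ℝ) ^ (2 * s) * (p : ℝ) ^ (4 * s) := by
            rw [← pow_add, ← pow_add]; congr 1; ring
          rw [e8]
          ring
  -- final computation
  obtain ⟨M, hMd⟩ : ∃ M, M = GE (em A1) := ⟨_, rfl⟩
  obtain ⟨G, hGd⟩ : ∃ G, G = GE (em A2) := ⟨_, rfl⟩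
  have hXM : |A1.det|⁻¹ ≤ M := by rw [hMd]; exact GE_ge W1.det
  have hKG : |A2.det|⁻¹ ≤ G := by rw [hGd]; exact GE_ge W2.det
  rw [← hMd, ← hGd] at hsumv ⊢
  rw [← hMd] at hGX
  rw [← hGd] at hGK
  have hρe : (p : ℝ) ^ ρ = (p : ℝ) ^ e * p := by rw [← pow_succ]; congr 1; rw [hρ, he]; exact ar8 hB hs
  have hA' : (p : ℝ) ^ ρ * (p : ℝ) ^ (4 * s) ≤ M * G := by
    rw [← pow_add, hρ]
    refine hA.trans ?_
    gcongr
  have hB' : (p : ℝ) ^ (4 * s) ≤ (p : ℝ) ^ ρ := pow_le_pow_right₀ hp1 (by rw [hρ]; exact a9)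
  have he1 : ((e : ℝ) + 1) ≤ 1 + r := by
    have h1 : e ≤ r := by rw [he]; exact a10
    have : (e : ℝ) ≤ r := by exact_mod_cast h1
    linarith
  have hr3 : (1 : ℝ) ≤ (1 + (r : ℝ)) ^ 3 := one_le_pow₀ (by linarith [Nat.cast_nonneg (α := ℝ) r])
  have hq1 : (0 : ℝ) < (p : ℝ) ^ (4 * s) := by positivity
  have hq7 : (0 : ℝ) < (p : ℝ) ^ (7 * s) := by positivity
  obtain ⟨W, hW⟩ : ∃ W, W = M ^ 4 * G ^ 8 / (p : ℝ) ^ (4 * s) := ⟨_, rfl⟩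
  have hW0 : 0 ≤ W := by rw [hW]; positivity
  have t1 : M ^ 4 * G ^ 8 * (1 / ((p ^ s : ℕ) : ℝ) ^ 4 + 1 / ((p ^ (2 * s) : ℕ) : ℝ) ^ 2 +
      1 / ((p ^ (4 * s) : ℕ) : ℝ)) = 3 * W := by
    rw [hW]
    push_cast
    rw [← pow_mul, ← pow_mul, show s * 4 = 4 * s by ring, show 2 * s * 2 = 4 * s by ring]
    ring
  have t2 : M ^ 3 * G ^ 7 / (((p ^ s : ℕ) : ℝ) * ((p ^ (2 * s) : ℕ) : ℝ) * ((p ^ (4 * s) : ℕ) : ℝ)) ^ 2 *
      ∑ x1 ∈ ((range (p ^ s)).image w1).offDiag, ∑ x2 ∈ ((range (p ^ (2 * s))).image w2).offDiag,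
      ∑ x3 ∈ ((range (p ^ (4 * s))).image w3).offDiag,
      Bf (ga (em A1) 0) (em A2) (z - em A2 x1.1 - em A2 x2.1 - em A2 x3.1) (Dx x3 (Dx x2 (Dx x1 F))) ≤
      (CG ^ 2 * (p : ℝ) ^ 2 + 8 * p) * W * (1 + r) ^ 3 := by
    have e1 : ((p ^ s : ℕ) : ℝ) * ((p ^ (2 * s) : ℕ) : ℝ) * ((p ^ (4 * s) : ℕ) : ℝ) =
        (p : ℝ) ^ (7 * s) := by
      push_cast
      rw [← pow_add, ← pow_add]; congr 1; ring
    rw [e1]
    have f1 : B1 ≤ CG ^ 2 * (p : ℝ) ^ 2 * (M * G / (p : ℝ) ^ (4 * s)) * (1 + r) ^ 3 := by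
      have g1 : (p : ℝ) ^ ρ ≤ M * G / (p : ℝ) ^ (4 * s) := by
        rw [le_div_iff₀ hq1]; exact hA'
      calc B1 = CG ^ 2 * (p : ℝ) ^ 2 * (p : ℝ) ^ ρ * 1 := by rw [hB1]; ring
        _ ≤ _ := by gcongr
    have f2 : M * G * (8 * ((e : ℝ) + 1) ^ 3 / (p : ℝ) ^ e) ≤
        8 * p * (M * G / (p : ℝ) ^ (4 * s)) * (1 + r) ^ 3 := by
      have g1 : 1 / (p : ℝ) ^ e ≤ p / (p : ℝ) ^ (4 * s) := by
        have h9 : (p : ℝ) * (p : ℝ) ^ e = (p : ℝ) ^ ρ := by rw [hρe]; ring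
        rw [div_le_div_iff₀ (by positivity) hq1, one_mul, h9]
        exact hB'
      have g2 : ((e : ℝ) + 1) ^ 3 ≤ (1 + (r : ℝ)) ^ 3 := by gcongr
      calc M * G * (8 * ((e : ℝ) + 1) ^ 3 / (p : ℝ) ^ e) =
            8 * (M * G) * (1 / (p : ℝ) ^ e) * ((e : ℝ) + 1) ^ 3 := by ring
        _ ≤ 8 * (M * G) * (p / (p : ℝ) ^ (4 * s)) * (1 + (r : ℝ)) ^ 3 := by gcongr
        _ = _ := by ring
    calc _ ≤ M ^ 3 * G ^ 7 / ((p : ℝ) ^ (7 * s)) ^ 2 * (((p : ℝ) ^ (7 * s)) ^ 2 *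
          (CG ^ 2 * (p : ℝ) ^ 2 * (M * G / (p : ℝ) ^ (4 * s)) * (1 + r) ^ 3 +
          8 * p * (M * G / (p : ℝ) ^ (4 * s)) * (1 + r) ^ 3)) := by
          refine mul_le_mul_of_nonneg_left ?_ (by positivity)
          refine hsumv.trans ?_
          exact mul_le_mul_of_nonneg_left (add_le_add f1 f2) (by positivity)
      _ = _ := by
          rw [hW]
          field_simp
  calc _ ≤ 16 * Real.exp (2 * Real.pi * R) ^ 7 * (3 * W + (CG ^ 2 * (p : ℝ) ^ 2 + 8 * p) * W * (1 + r) ^ 3) := by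
        refine mul_le_mul_of_nonneg_left (add_le_add (le_of_eq t1) t2) (by positivity)
    _ ≤ 16 * Real.exp (2 * Real.pi * R) ^ 7 * (3 * W * (1 + r) ^ 3 +
        (CG ^ 2 * (p : ℝ) ^ 2 + 8 * p) * W * (1 + r) ^ 3) := by
        have : 3 * W ≤ 3 * W * (1 + r) ^ 3 := le_mul_of_one_le_right (by positivity) hr3
        gcongr
    _ = _ := by rw [hW]; ring

end Run7.h343.NU
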